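import Pool.Agent.Helper35_XQ.StmtAH
import Pool.Agent.Helper60_AEU.Asm

/-!
Squad XQ (MP_5b0138_an), Part AH: from the blocks to the Laplace transform, general version
(adapted by helper35 from helper60).
-/

set_option autoImplicit false

namespace Pool.Agent.XQ.AH.H35

open MeasureTheory Complex Filter Topology Pool.Agent.H62T Pool.Agent.H60K Pool.Agent.H38KL
open scoped ENNReal NNReal

/-- Claim B, general -/
lemma claimB (hHYE : HyeStatement) (V : ℝ → ℝ) (T0 : ℝ → ℝ → ℝ) {l δ ε : ℝ}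
    (hl : 0 < l) (hδ : 0 < δ)
    (hblk : ∀ n : ℕ, 2 ≤ n → ∃ (C : ℝ) (p : ℕ), ∀ τ : Fin n → ℝ, (∀ j, 0 < τ j) →
      (∀ j, τ j * l ^ 2 ≤ δ ^ 2 * ∑ i, τ i) →
      |V (∑ j, τ j) - ∑ j, T0 (τ j) (∑ i, τ i)|
        ≤ C * (1 + ∑ i, τ i) ^ p / (∑ i, τ i)
          * Real.exp (-((1 - ε) * l ^ 2 / (4 * ∑ i, τ i))))
    (hbd : ∀ t : ℝ, 0 < t → ∃ M : ℝ, ∀ a : ℝ, 0 < a → a ≤ t / 2 → |T0 a t| ≤ M) :
    ∃ (K : ℕ) (C : ℝ) (p : ℕ), 2 ≤ K ∧ 0 ≤ C ∧
      ∀ a t : ℝ, 0 < a → K * a ≤ t →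
      |T0 a t - a / t * V t| ≤ Q C p ((1 - ε) * l ^ 2) t := by
  obtain ⟨K0, hK0⟩ := exists_nat_ge (l ^ 2 / δ ^ 2)
  set K : ℕ := K0 + 2 with hK
  have hK2 : 2 ≤ K := by omega
  have hKl : l ^ 2 ≤ δ ^ 2 * K := by
    rw [div_le_iff₀ (by positivity)] at hK0
    rw [hK]
    push_cast
    nlinarith [sq_nonneg δ]
  have hKR : (0 : ℝ) < K := by positivity
  have hK2R : (2 : ℝ) ≤ K := by exact_mod_cast hK2
  obtain ⟨C1', p1, h1'⟩ := hblk (K + 1) (by omega)
  obtain ⟨C2', p2, h2'⟩ := hblk (K + 2) (by omega)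
  set C1 : ℝ := |C1'| with hC1e
  set C2 : ℝ := |C2'| with hC2e
  have hC1 : 0 ≤ C1 := abs_nonneg _
  have hC2 : 0 ≤ C2 := abs_nonneg _
  set m : ℝ := (1 - ε) * l ^ 2 with hm
  refine ⟨K, 3 * (C1 + C2) + (C1 + (K + 1) * (3 * (C1 + C2))), p1 + p2, hK2, by positivity,
    fun a t ha hat => ?_⟩
  have ht : 0 < t := lt_of_lt_of_le (by positivity) hat
  set T : ℝ → ℝ := fun a => T0 a t with hT
  set q1 : ℝ := Q C1 (p1 + p2) m t with hq1
  set q2 : ℝ := Q C2 (p1 + p2) m t with hq2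
  have hmesh : ∀ r : ℝ, 0 < r → r ≤ t / K → r * l ^ 2 ≤ δ ^ 2 * t := by
    intro r hr hr'
    have h3 : r * K ≤ t := by rwa [le_div_iff₀ hKR] at hr'
    calc r * l ^ 2 ≤ r * (δ ^ 2 * K) := by gcongr
      _ = δ ^ 2 * (r * K) := by ring
      _ ≤ δ ^ 2 * t := by gcongr
  have hQ1 : C1' * (1 + t) ^ p1 / t * Real.exp (-(m / (4 * t))) ≤ q1 :=
    Q_le (m := m) ht (le_abs_self C1') hC1 (by omega)
  have hQ2 : C2' * (1 + t) ^ p2 / t * Real.exp (-(m / (4 * t))) ≤ q2 :=
    Q_le (m := m) ht (le_abs_self C2') hC2 (by omega)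
  -- `K + 1` blocks
  have e1 : ∀ s r : ℝ, 0 < s → s ≤ t / K → 0 < r → r ≤ t / K → s + K * r = t →
      |V t - (T s + K * T r)| ≤ q1 := by
    intro s r hs hs' hr hr' hsum
    have hS : ∑ j : Fin (K + 1), (Fin.cons s (fun _ : Fin K => r) : Fin (K + 1) → ℝ) j = t := by
      rw [Fin.sum_univ_succ]
      simp only [Fin.cons_zero, Fin.cons_succ, Finset.sum_const, Finset.card_univ,
        Fintype.card_fin, nsmul_eq_mul]
      exact hsum
    have h3 := h1' (Fin.cons s (fun _ : Fin K => r) : Fin (K + 1) → ℝ) (by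
      intro j
      refine Fin.cases ?_ (fun i => ?_) j
      · simpa using hs
      · simpa using hr) (by
      intro j
      rw [hS]
      refine Fin.cases ?_ (fun i => ?_) j
      · simpa using hmesh s hs hs'
      · simpa using hmesh r hr hr')
    rw [hS, Fin.sum_univ_succ] at h3
    simp only [Fin.cons_zero, Fin.cons_succ, Finset.sum_const, Finset.card_univ,
      Fintype.card_fin, nsmul_eq_mul] at h3
    exact h3.trans hQ1
  -- `K + 2` blocks
  have e2 : ∀ s s' r : ℝ, 0 < s → s ≤ t / K → 0 < s' → s' ≤ t / K → 0 < r → r ≤ t / K →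
      s + (s' + K * r) = t → |V t - (T s + (T s' + K * T r))| ≤ q2 := by
    intro s s' r hs hs' hs2 hs2' hr hr' hsum
    set τ : Fin (K + 2) → ℝ := Fin.cons s (Fin.cons s' (fun _ : Fin K => r) : Fin (K + 1) → ℝ)
      with hτ
    have hS : ∑ j : Fin (K + 2), τ j = t := by
      rw [Fin.sum_univ_succ, Fin.sum_univ_succ]
      simp only [hτ, Fin.cons_zero, Fin.cons_succ, Finset.sum_const, Finset.card_univ,
        Fintype.card_fin, nsmul_eq_mul]
      exact hsum
    have h3 := h2' τ (by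
      intro j
      refine Fin.cases ?_ (fun i => ?_) j
      · simpa [hτ] using hs
      · rw [hτ, Fin.cons_succ]
        refine Fin.cases ?_ (fun i => ?_) i
        · simpa using hs2
        · simpa using hr) (by
      intro j
      rw [hS]
      refine Fin.cases ?_ (fun i => ?_) j
      · simpa [hτ] using hmesh s hs hs'
      · rw [hτ, Fin.cons_succ]
        refine Fin.cases ?_ (fun i => ?_) i
        · simpa using hmesh s' hs2 hs2'
        · simpa using hmesh r hr hr')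
    rw [hS, Fin.sum_univ_succ, Fin.sum_univ_succ] at h3
    simp only [hτ, Fin.cons_zero, Fin.cons_succ, Finset.sum_const, Finset.card_univ,
      Fintype.card_fin, nsmul_eq_mul] at h3
    exact h3.trans hQ2
  -- almost additivity
  have e3 : ∀ a b : ℝ, 0 < a → 0 < b → a + b ≤ t / K → |T (a + b) - T a - T b| ≤ q1 + q2 := by
    intro a b ha hb hab
    have hr0 : a + b < t := by
      have : t / K ≤ t / 2 := by gcongr
      linarith
    have hr : 0 < (t - (a + b)) / K := div_pos (by linarith) hKR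
    have hr' : (t - (a + b)) / K ≤ t / K := by
      gcongr
      linarith
    have hKr : K * ((t - (a + b)) / K) = t - (a + b) := by field_simp
    have f1 := e1 (a + b) ((t - (a + b)) / K) (by linarith) hab hr hr' (by rw [hKr]; ring)
    have f2 := e2 a b ((t - (a + b)) / K) ha (by linarith) hb (by linarith) hr hr'
      (by rw [hKr]; ring)
    rw [abs_le] at f1 f2 ⊢
    constructor <;> linarith only [f1.1, f1.2, f2.1, f2.2]
  obtain ⟨M, hM⟩ := hbd t ht
  have e4 := hHYE T (t / K) (q1 + q2) M (by positivity) (fun a ha ha' => hM a ha (by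
    have : t / K ≤ t / 2 := by gcongr
    linarith)) e3
  -- comparison with the total mass
  have hr : 0 < t / (K + 1) := by positivity
  have hr' : t / (K + 1) ≤ t / K := by gcongr; linarith
  have e5 := e1 (t / (K + 1)) (t / (K + 1)) hr hr' hr hr' (by field_simp; ring)
  have e6 := e4 (t / (K + 1)) hr hr'
  have e7 := e4 a ha (by rw [le_div_iff₀ hKR]; linarith)
  have hq0 : 0 ≤ q1 + q2 := (abs_nonneg _).trans (e3 (t / K / 2) (t / K / 2) (by positivity)
    (by positivity) (by linarith))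
  have h8 : t / (K + 1) / (t / K) = K / (K + 1) := by field_simp
  have h9 : a / (t / K) = a / t * K := by field_simp
  rw [h8] at e6
  rw [h9] at e7
  set X : ℝ := T (t / K) with hX
  have e8 : |V t - K * X| ≤ q1 + (K + 1) * (3 * (q1 + q2)) := by
    have f1 : V t - K * X = (V t - (T (t / (K + 1)) + K * T (t / (K + 1))))
        + (K + 1) * (T (t / (K + 1)) - K / (K + 1) * X) := by
      field_simp
      ring
    rw [f1]
    refine (abs_add_le _ _).trans ?_
    rw [abs_mul, abs_of_pos (by positivity : (0 : ℝ) < K + 1)]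
    gcongr
  have hat1 : a / t ≤ 1 := by
    rw [div_le_one ht]
    nlinarith only [hat, hK2R, ha]
  have hat0 : 0 ≤ a / t := by positivity
  have e9 : |T a - a / t * V t| ≤ 3 * (q1 + q2) + (q1 + (K + 1) * (3 * (q1 + q2))) := by
    have f1 : T a - a / t * V t = (T a - a / t * K * X) - a / t * (V t - K * X) := by ring
    rw [f1]
    refine (abs_sub _ _).trans ?_
    rw [abs_mul, abs_of_nonneg hat0]
    refine add_le_add e7 ?_
    calc a / t * |V t - K * X| ≤ 1 * |V t - K * X| := by gcongr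
      _ ≤ _ := by rw [one_mul]; exact e8
  refine e9.trans (le_of_eq ?_)
  rw [hq1, hq2]
  simp only [Q]
  ring

/-- absorbing the factor `1 / t` -/
lemma absorb {m m' t : ℝ} (h : m' < m) (ht : 0 < t) :
    1 / t * Real.exp (-(m / (4 * t))) ≤ 4 / (m - m') * Real.exp (-(m' / (4 * t))) := by
  have h0 : 0 < m - m' := by linarith
  have h1 : (m - m') / (4 * t) ≤ Real.exp ((m - m') / (4 * t)) := by
    have := Real.add_one_le_exp ((m - m') / (4 * t))
    linarith
  have h2 : Real.exp (-(m' / (4 * t))) = Real.exp ((m - m') / (4 * t)) *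
      Real.exp (-(m / (4 * t))) := by
    rw [← Real.exp_add]
    congr 1
    field_simp
    ring
  rw [h2, ← mul_assoc]
  refine mul_le_mul_of_nonneg_right ?_ (Real.exp_pos _).le
  have h3 : 1 / t = 4 / (m - m') * ((m - m') / (4 * t)) := by field_simp
  rw [h3]
  exact mul_le_mul_of_nonneg_left h1 (by positivity)

theorem abs_of (hHYE : HyeStatement) (hLPS : LpsStatement) : AH.AbsStatement := by
  intro V T l δ l0 C0 ε p0 hl hδ hl0 hε hV hT hVb hTb hblk
  -- a slightly smaller length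
  set l' : ℝ := max (l - ε / 2) (l / 2) with hl'
  have hl'0 : 0 < l' := lt_of_lt_of_le (by positivity) (le_max_right _ _)
  have hl'l : l' < l := max_lt (by linarith) (by linarith)
  have hl'e : l - ε / 2 ≤ l' := le_max_left _ _
  set ε' : ℝ := (1 - l' ^ 2 / l ^ 2) / 2 with hε'
  have hsq : l' ^ 2 < l ^ 2 := by nlinarith only [hl'l, hl'0]
  have hε'0 : 0 < ε' := by
    have : l' ^ 2 / l ^ 2 < 1 := by rw [div_lt_one (by positivity)]; exact hsq
    rw [hε']; linarith
  have hm : l' ^ 2 < (1 - ε') * l ^ 2 := by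
    have : (1 - ε') * l ^ 2 = (l ^ 2 + l' ^ 2) / 2 := by
      rw [hε']; field_simp; ring
    rw [this]; linarith
  have hbd : ∀ t : ℝ, 0 < t → ∃ M : ℝ, ∀ a : ℝ, 0 < a → a ≤ t / 2 → |T a t| ≤ M :=
    fun t ht => ⟨_, fun a ha ha' => hTb a t ha (by linarith)⟩
  obtain ⟨K, C, p, hK, hC, h1⟩ := claimB hHYE V T hl hδ (hblk ε' hε'0) hbd
  set D : ℝ := |C0| + C * (4 / ((1 - ε') * l ^ 2 - l' ^ 2)) with hD
  have hd0 : 0 < (1 - ε') * l ^ 2 - l' ^ 2 := by linarith
  have hD1 : C * (4 / ((1 - ε') * l ^ 2 - l' ^ 2)) ≤ D := by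
    rw [hD]; linarith [abs_nonneg C0]
  have hD2 : C0 ≤ D := by
    have : 0 ≤ C * (4 / ((1 - ε') * l ^ 2 - l' ^ 2)) := by positivity
    rw [hD]; linarith [le_abs_self C0]
  have hD0 : 0 ≤ D := by positivity
  have hpw : ∀ t : ℝ, 0 < t → ∀ q : ℕ, q ≤ p0 + p → (1 + t) ^ q ≤ (1 + t) ^ (p0 + p) :=
    fun t ht q hq => pow_le_pow_right₀ (by linarith) hq
  have hbase : ∀ t : ℝ, 0 < t → C0 * (1 + t) ^ p0 * Real.exp (-(l0 ^ 2 / (4 * t)))
      ≤ D * (1 + t) ^ (p0 + p) * Real.exp (-(l0 ^ 2 / (4 * t))) := by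
    intro t ht
    refine mul_le_mul_of_nonneg_right ?_ (Real.exp_pos _).le
    have h3 : (0 : ℝ) ≤ (1 + t) ^ p0 := by positivity
    calc C0 * (1 + t) ^ p0 ≤ D * (1 + t) ^ p0 := mul_le_mul_of_nonneg_right hD2 h3
      _ ≤ _ := mul_le_mul_of_nonneg_left (hpw t ht p0 (by omega)) hD0
  obtain ⟨c0, hc0, h2⟩ := hLPS V T K (p0 + p) D l' l0 (ε / 2) (by omega) hl'0 hl0 (by linarith)
    hV hT (fun a t ha hat => by
      have ht : 0 < t := lt_of_lt_of_le (by
        have : (0 : ℝ) < K := by exact_mod_cast (by omega : 0 < K)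
        positivity) hat
      refine (h1 a t ha hat).trans ?_
      unfold Q
      have h3 := absorb hm ht
      have h4 : (0 : ℝ) ≤ (1 + t) ^ p := by positivity
      calc C * (1 + t) ^ p / t * Real.exp (-((1 - ε') * l ^ 2 / (4 * t)))
          = C * (1 + t) ^ p * (1 / t * Real.exp (-((1 - ε') * l ^ 2 / (4 * t)))) := by
            ring
        _ ≤ C * (1 + t) ^ p * (4 / ((1 - ε') * l ^ 2 - l' ^ 2) *
            Real.exp (-(l' ^ 2 / (4 * t)))) := mul_le_mul_of_nonneg_left h3 (by positivity)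
        _ = C * (4 / ((1 - ε') * l ^ 2 - l' ^ 2)) * (1 + t) ^ p *
            Real.exp (-(l' ^ 2 / (4 * t))) := by ring
        _ ≤ D * (1 + t) ^ (p0 + p) * Real.exp (-(l' ^ 2 / (4 * t))) := by
            refine mul_le_mul_of_nonneg_right ?_ (Real.exp_pos _).le
            exact mul_le_mul hD1 (hpw t ht p (by omega)) h4 hD0)
    (fun t ht => (hVb t ht).trans (hbase t ht))
    (fun a t ha hat => (hTb a t ha hat).trans (hbase t (by linarith)))
  refine ⟨c0, hc0, fun c hc hc' => ?_⟩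
  obtain ⟨C', κ0, hκ0, h3⟩ := h2 c hc hc'
  refine ⟨|C'|, κ0, hκ0, fun κ hκ => (h3 κ hκ).trans ?_⟩
  have hκ' : 0 < κ := lt_of_lt_of_le hκ0 hκ
  have h5 : Real.exp (-(κ * (l' - ε / 2))) ≤ Real.exp (-(κ * (l - ε))) := by
    apply Real.exp_le_exp.2
    have := mul_le_mul_of_nonneg_left (show l - ε ≤ l' - ε / 2 by linarith) hκ'.le
    linarith
  calc C' * Real.exp (-(κ * (l' - ε / 2))) ≤ |C'| * Real.exp (-(κ * (l' - ε / 2))) :=
        mul_le_mul_of_nonneg_right (le_abs_self _) (Real.exp_pos _).le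
    _ ≤ _ := mul_le_mul_of_nonneg_left h5 (abs_nonneg _)

end Pool.Agent.XQ.AH.H35
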