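import Pool.Agent.Helper35_XQ.Fin
import Pool.Agent.Helper60_AEU.All
import Pool.Agent.Helper20_XQ.Bad
import Pool.Agent.Helper20_XQ.Mol
import Pool.Agent.Helper75_XQ.Blo
import Pool.Agent.Helper75_XQ.Cmb
import Pool.Agent.Helper21_XQ.GiBnd
import Pool.Agent.Helper21_XQ.GiOne
import Pool.Agent.Helper47_XQ.Chn
import Pool.Agent.Helper47_XQ.Lci
import Pool.Agent.Helper30_XQ.Cru
import Pool.Agent.Helper30_XQ.Len
import Pool.Agent.Helper15_XQ.Dsp
import Pool.Agent.Helper15_XQ.Klm
import Pool.Agent.Helper4_XQ.Flx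
import Pool.Agent.Helper4_XQ.Vbd
import Pool.Agent.Helper93_XQ.Fma
import Pool.Agent.Helper25_XQ.GEO
import Pool.Agent.Helper25_XQ.TEO
import Pool.Agent.Helper50_XQ.Kbd
import Pool.Agent.Helper48_XQ.Kfb
import Pool.Agent.Helper48_XQ.Lst
import Pool.Agent.Helper26_XQ.Loa
import Pool.Agent.Helper26_XQ.Low
import Pool.Agent.Helper69_XQ.LPI
import Pool.Agent.Helper69_XQ.RED
import Pool.Agent.Helper68_XQ.Ord
import Pool.Agent.Helper68_XQ.Upo
import Pool.Agent.Helper7_XQ.Sym
import Pool.Agent.Helper7_XQ.Tui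
import Pool.Agent.Helper38_XQ.Vlm
import Pool.Agent.Helper67_XQ.Erf

/-!
Squad XQ (MP_5b0138_an), Part A2 (helper35): the germs GDX and GIS.
-/

set_option autoImplicit false

namespace Pool.Agent.XQ.GI

open MeasureTheory Complex Filter Topology Pool.Agent.H62T Pool.Agent.H60K
open scoped ENNReal NNReal

lemma norm_uI (α : ℝ) (s : Fin 3) : ‖uI α s‖ = 1 := by
  have h : ‖uI α s‖ ^ 2 = 1 := by
    rw [nsq]
    unfold uI
    split_ifs <;> simp
  nlinarith [norm_nonneg (uI α s)]

lemma meas_VM {u : Fin 3 → ℂ} (hu : ∀ s, ‖u s‖ = 1) (h : Fin 3 → ℝ) :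
    Measurable (VM u h Finset.univ ∅) := by
  have h1 : (VM u h Finset.univ ∅) = fun t => ∫ x, kA u h Finset.univ t x x := by
    funext t
    unfold VM kME kA
    simp
  rw [h1]
  have h2 := (lab_all u h hu).1 Finset.univ
  have h3 : Measurable (fun p : ℝ × ℂ => kA u h Finset.univ p.1 p.2 p.2) := by
    have h4 := h2.comp (measurable_fst.prodMk (measurable_snd.prodMk measurable_snd) :
      Measurable (fun p : ℝ × ℂ => (p.1, p.2, p.2)))
    simpa only [Function.comp_def] using h4
  exact (h3.stronglyMeasurable.integral_prod_right').measurable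

theorem all_lst : LstStatement := H48.lst

theorem all_kfb : KfbStatement := H48.kfb

theorem all_klm : KlmStatement := H15.klm all_lst all_kfb

theorem all_ord : OrdStatement := H68.ord all_kfb all_klm

theorem all_cmb : CmbStatement := H75.cmb all_lst

theorem all_teo : TeoStatement := teo all_lst all_cmb

theorem all_upo : UpoStatement := H68.upo all_lst all_kfb all_ord

theorem all_bad : BadStatement :=
  H20.bad (H60K.ldm lab_all AEU.H7.ldb) all_cmb (H20.mol all_ord) geoI H47.lci H30.len

theorem all_bnd : BndStatement := H21.bnd all_lst all_ord (H21.one lab_all H15.hpk all_ord)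

theorem all_vlm : VlmStatement := H38.vlm all_lst all_ord H7.sym

theorem all_vbd : VbdStatement :=
  H4V.vbd all_vlm (H47.chn all_ord) (H75B.blo all_ord all_teo all_cmb)
    (H7.tui all_lst all_ord all_cmb) all_bad
    (H30.cru H47.lci H44.blv (H60K.ldm lab_all AEU.H7.ldb))
    (H4.flx H93.fma (kbd all_upo (H26.low (H26.loa all_kfb all_ord))) (H67.erf H30.len)
      (H15D.dsp all_upo) H30.len all_upo)
    all_bnd H30.len

/-- germs of isosceles triangles -/
theorem germIso : GermIsoStmt :=
  gis all_vbd lpi (red H53.inv H25.vex) H30.len fun α b => meas_VM (norm_uI α) _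

/-- germs of acute triangles, without a condition on the largest angle -/
theorem germDX : GermDXStmt :=
  gdx all_vbd lpi (red H53.inv H25.vex) H30.len (fun α b => meas_VM (norm_uI α) _) H60K.germs.2.1

end Pool.Agent.XQ.GI
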