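import Pool.Agent.Helper35_XQ.AllM
import Pool.Agent.Helper35_XQ.AllGI
import Pool.Agent.Helper36_XQ.All34
import Pool.Agent.Helper74_XQ.Gbr
import Pool.Agent.Helper25_AEU.GermAFinal

/-!
Squad XQ (MP_5b0138_an), part M: the germs (helper35).
-/

set_option autoImplicit false

namespace Pool.Agent.XQ

open MeasureTheory Complex Filter Topology Pool.Agent.H62T
open Pool.Agent.H16Iso Pool.Agent.AEU
open Pool.Agent.H1Gen (CCW poly)

theorem all_germs (ah : GermAhStmt) (e2 : GermE2Stmt) (e1 : GermE1Stmt) : Germs where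
  a := AEU.H25.germA_final
  b := H60K.germs.1
  b' := H60K.germs.2.1
  dx := GI.germDX
  iso := GI.germIso
  ah := ah
  br := H74.gbr
  e2 := e2
  e1 := e1
  g3 := K4.germ3_all
  g4 := K4.germ4_all

end Pool.Agent.XQ
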