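import Pool.Agent.Helper35_XQ.StmtAH

/-!
Squad XQ (MP_5b0138_an), Part AH (helper35): the germ of an edge with a right angle at one end,
the assembly.
-/

set_option autoImplicit false

namespace Pool.Agent.XQ.AH

open MeasureTheory Complex Filter Topology Pool.Agent.H62T Pool.Agent.H60K Pool.Agent.H38KL
open scoped ENNReal NNReal

/-- the loops of the standard configuration -/
lemma phi_small (bmn : BmnStatement) (fln : AH.FlnStatement) {α d : ℝ} (hα : Real.pi / 2 < α)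
    (hα' : α < Real.pi) (hd : 0 < d) :
    ∃ e C κ0 : ℝ, 0 < e ∧ 0 < κ0 ∧ ∀ κ : ℝ, κ0 ≤ κ →
      |PhiT (VM (us α 0) (hh d) {0, 1} {2}) κ - 1 / 2 * FN α 0 d κ|
        ≤ C * Real.exp (-(κ * (2 * d + e))) := by
  obtain ⟨ρ1, hρ1, h1⟩ := bmn α d hα hα' hd
  obtain ⟨ρ2, hρ2, h2⟩ := fln α d hα hα' hd
  set ρ := min ρ1 ρ2 / 2 with hρ
  have hm : 0 < min ρ1 ρ2 := lt_min hρ1 hρ2
  have hρ0 : 0 < ρ := by positivity
  have hρ3 : ρ < ρ1 := by have := min_le_left ρ1 ρ2; linarith
  have hρ4 : ρ < ρ2 := by have := min_le_right ρ1 ρ2; linarith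
  obtain ⟨e1, δ1, he1, hδ1, h1⟩ := h1 ρ hρ0 hρ3
  obtain ⟨e2, δ2, he2, hδ2, h2⟩ := h2 ρ hρ0 hρ4
  set δ := min δ1 δ2 / 2 with hδ
  have hm : 0 < min δ1 δ2 := lt_min hδ1 hδ2
  have hδ0 : 0 < δ := by positivity
  have hδ3 : δ < δ1 := by have := min_le_left δ1 δ2; linarith
  have hδ4 : δ < δ2 := by have := min_le_right δ1 δ2; linarith
  obtain ⟨c1, hc1, h1⟩ := h1 δ hδ0 hδ3
  obtain ⟨c2, hc2, h2⟩ := h2 δ hδ0 hδ4
  set c := min c1 c2 / 2 with hc
  have hm : 0 < min c1 c2 := lt_min hc1 hc2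
  have hc0 : 0 < c := by positivity
  have hc3 : c < c1 := by have := min_le_left c1 c2; linarith
  have hc4 : c < c2 := by have := min_le_right c1 c2; linarith
  obtain ⟨C1, κ1, hκ1, h1⟩ := h1 c hc0 hc3
  obtain ⟨C2, κ2, hκ2, h2⟩ := h2 c hc0 hc4
  refine ⟨min e1 e2, |C1| + |C2|, max κ1 κ2, lt_min he1 he2, lt_max_of_lt_left hκ1,
    fun κ hκ => ?_⟩
  have hκ0 : 0 < κ := lt_of_lt_of_le (lt_max_of_lt_left hκ1) hκ
  have k1 := h1 κ ((le_max_left _ _).trans hκ)
  have k2 := h2 κ ((le_max_right _ _).trans hκ)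
  have m1 : Real.exp (-(κ * (2 * d + e1))) ≤ Real.exp (-(κ * (2 * d + min e1 e2))) := by
    apply Real.exp_le_exp.2
    have := mul_le_mul_of_nonneg_left (min_le_left e1 e2) hκ0.le
    linarith
  have m2 : Real.exp (-(κ * (2 * d + e2))) ≤ Real.exp (-(κ * (2 * d + min e1 e2))) := by
    apply Real.exp_le_exp.2
    have := mul_le_mul_of_nonneg_left (min_le_right e1 e2) hκ0.le
    linarith
  calc |PhiT (VM (us α 0) (hh d) {0, 1} {2}) κ - 1 / 2 * FN α 0 d κ|
      ≤ _ + _ := abs_sub_le _ _ _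
    _ ≤ C1 * Real.exp (-(κ * (2 * d + e1))) + C2 * Real.exp (-(κ * (2 * d + e2))) :=
        add_le_add k1 k2
    _ ≤ |C1| * Real.exp (-(κ * (2 * d + min e1 e2)))
        + |C2| * Real.exp (-(κ * (2 * d + min e1 e2))) :=
        add_le_add (mul_le_mul (le_abs_self _) m1 (Real.exp_pos _).le (abs_nonneg _))
          (mul_le_mul (le_abs_self _) m2 (Real.exp_pos _).le (abs_nonneg _))
    _ = _ := by ring

/-- GAH -/
theorem germAh (bmn : BmnStatement) (fln : AH.FlnStatement) (fnc : FncStatement)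
    (hINV : InvStatement) (hVEX : VexStatement) : GermAhStmt := by
  intro z β l hz hβ hβ' hl
  set α : ℝ := Real.pi - β with hα
  have hα1 : Real.pi / 2 < α := by linarith
  have hα2 : α < Real.pi := by linarith
  have hs : 0 < Real.sin α := Real.sin_pos_of_pos_of_lt_pi (by linarith [Real.pi_pos]) hα2
  have e1 : z * exp (-(β : ℂ) * I) = n1 z α := by
    unfold n1
    rw [hα]
    push_cast
    congr 3
    ring
  have e3 : z * I = n3 z 0 := by
    unfold n3
    simp
  have es : Real.sin β = Real.sin α := by rw [hα, Real.sin_pi_sub]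
  rw [e1, e3, es]
  unfold AEU.germB
  obtain ⟨e, C, κ0, he, hκ0, h⟩ := phi_small bmn fln hα1 hα2 hl
  refine ⟨C, e, he, ?_⟩
  filter_upwards [eventually_ge_atTop κ0] with κ hκ
  have hκ' : 0 < κ := lt_of_lt_of_le hκ0 hκ
  have h3 := h κ hκ
  rw [fnc α l κ hα1 hα2 hl hκ'] at h3
  have c1 : Real.cos α < 0 := Real.cos_neg_of_pi_div_two_lt_of_lt hα1 (by linarith)
  have hL1 : n3 z 0 * (I * exp ((α : ℂ) * I)) = n1 z α := by
    have := L1 (z := z) (α := α) (η := 0)
    rw [sub_zero] at this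
    exact this
  have d31 : dt (n3 z 0) (n1 z α) = Real.cos α := by
    have := dt31 (α := α) (η := 0) hz
    rwa [sub_zero] at this
  have d23 : dt z (n3 z 0) = 1 := by
    have := dt23 (η := 0) hz
    rwa [Real.cos_zero] at this
  have h5 := lap_nsp hVEX hINV (η1 := α) (η2 := 0) (v1 := n1 z α) (v2 := z)
    (d := l) (u1 := n1 z α) (u2 := z) (u3 := n3 z 0)
    (p := 1 / Real.sin α) (q := -Real.cos α / Real.sin α)
    (Lr (n3 z 0) (norm_n3 hz))
    (by rw [Lr_apply, us0, mul_one]) (by rw [Lr_apply, us1]; exact hL1)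
    (by rw [Lr_apply, us2]; exact L2) (norm_n1 hz) hz (norm_n3 hz)
    (by rw [dt12 hz]; exact hs) (by positivity)
    (by have : 0 < -Real.cos α := by linarith
        positivity)
    (by rw [dt12 hz, abs_of_pos hs])
    (by unfold AEU.pr
        rw [dt12 hz, d23, d31]
        field_simp)
    (fun x => by
      have := dep3 (n1 z α) z (n3 z 0) x
      rw [dt12 hz, d23, d31] at this
      field_simp
      linarith)
    (fun k => by
      unfold AEU.DD
      rw [dt12 hz, d23, d31]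
      field_simp
      ring) κ
  rw [dt12 hz] at h5
  rw [h5]
  refine h3.trans (le_of_eq ?_)
  congr 2
  ring

end Pool.Agent.XQ.AH
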