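import Pool.Agent.Helper60_AEU.All
import Pool.Agent.Helper16_XQ.Ana

/-!
Squad XQ (MP_5b0138_an), Part AH (helper35): the germ of an edge with a right angle at one end.

Standard configuration `us α 0`, `hh d`: line `0` is `re = d`, line `1` passes through the vertex `0` in
the direction `exp (i α)`, line `2` is the real axis; the loops visit `0` and `1` and avoid `2` (they
stay in the upper half-plane). Line `2` is orthogonal to line `0`.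
-/

set_option autoImplicit false

namespace Pool.Agent.XQ.AH

open MeasureTheory Complex Filter Topology Pool.Agent.H62T Pool.Agent.H60K Pool.Agent.H38KL
open scoped ENNReal NNReal

/-- the flux through the half window `0 < im < ζ` in a block of duration `a` -/
noncomputable def TT0 (α d ξ1 δ ζ a t : ℝ) : ℝ :=
  ∫ x in Rw ξ1 δ ζ 0, ∫ y in Rw ξ1 δ ζ 0, (G a (x - y) - G a (x - (starRingEnd ℂ) y))
    * (ch ξ1 y - ch ξ1 x)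
    * kME (us α 0) (hh d) {1} {2} (t - a) (rf (us α 0) (hh d) 0 y) x

/-- coefficient -/
noncomputable def mm (α τ : ℝ) : ℝ := Real.sinh ((Real.pi - α) * τ) / Real.sinh (α * τ)

/-! ### Kernels -/

/-- QPK: the quarter-plane, by the reflection in line `0` -/
def QpkStatement : Prop :=
  ∀ (u : Fin 3 → ℂ) (h : Fin 3 → ℝ), (∀ s, ‖u s‖ = 1) → ip (u 0) (u 2) = 0 →
    ∀ (t : ℝ) (x y : ℂ), 0 < t → ip (u 0) x < h 0 → ip (u 0) y < h 0 →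
      pB u h {0, 2} t x y = pB u h {2} t x y - pB u h {2} t x (rf u h 0 y)

/-- the labels of chains which never visit `2`, visit `0` for the first time in some block and visit
`1` in a later block -/
def Qe : (m : ℕ) → (Fin (m + 1) → Finset (Fin 3)) → Prop
  | 0, _ => False
  | m + 1, A => 2 ∉ A 0 ∧ ((0 ∉ A 0 ∧ Qe m (fun j => A j.succ)) ∨
      (0 ∈ A 0 ∧ Vis {1} {2} (fun j : Fin (m + 1) => A j.succ)))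

/-- RCH: reflection of chains -/
def RchStatement : Prop :=
  ∀ (u : Fin 3 → ℂ) (h : Fin 3 → ℝ), (∀ s, ‖u s‖ = 1) → ip (u 0) (u 2) = 0 →
    ∀ (m : ℕ) (τ : Fin (m + 1) → ℝ), (∀ j, 0 < τ j) → ∀ x y : ℂ, ip (u 0) x < h 0 →
      H20.Cs u h (Qe m) τ x y = H20.Cs (uc u) (hc h) (Qe m) τ (rf u h 0 x) y

/-- REF: reflection of the path before its first visit of line `0` -/
def RefStatement : Prop :=
  ∀ (α d ξ1 δ ζ : ℝ) (n : ℕ) [NeZero n] (τ : Fin n → ℝ), 0 < δ → ξ1 + δ < d → 2 ≤ n →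
    (∀ j, 0 < τ j) → Ms (us α 0) (hh d) τ (fun _ A => Vis {0, 1} {2} A) ≠ ⊤ →
    ENNReal.ofReal |TC (us α 0) (hh d) τ {1} {2} ξ1 - TT0 α d ξ1 δ ζ (τ 0) (∑ j, τ j)|
      ≤ Ms (us α 0) (hh d) τ (fun x A => Fj {1} A 0 ∧ (∀ j, Disjoint (A j) {2}) ∧
          ch ξ1 (x 0) ≠ ch ξ1 (x 1) ∧ ¬ (x 0 ∈ Rw ξ1 δ ζ 0 ∧ x 1 ∈ Rw ξ1 δ ζ 0))
        + Mtw (us α 0) (hh d) τ (fun x A => Bad3 {1} {2} A ∧ ch ξ1 (x 0) ≠ ch ξ1 (x 1) ∧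
          x 0 ∈ Rw ξ1 δ ζ 0 ∧ x 1 ∈ Rw ξ1 δ ζ 0)

/-! ### Geometry -/

/-- GEN: short loops -/
def GenStatement : Prop :=
  ∀ α d : ℝ, Real.pi / 2 < α → α < Real.pi → 0 < d →
    ∃ ρ0 : ℝ, 0 < ρ0 ∧ ∀ ρ : ℝ, 0 < ρ → ρ < ρ0 → ∃ e δ0 : ℝ, 0 < e ∧ 0 < δ0 ∧
    ∀ δ : ℝ, 0 < δ → δ < δ0 →
    ∀ (n : ℕ) [NeZero n] (x : Fin n → ℂ) (A : Fin n → Finset (Fin 3)), 2 ≤ n →
      (Vis {0, 1} {2} A → Cns (us α 0) (hh d) x A → Sho (us α 0) (hh d) δ x A →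
        Ln (us α 0) (hh d) x A < 2 * d + e →
        Adp {1} (d - 2 * δ) x A ∧ NoAlt {1} A ∧
        (ch (d - 2 * δ) (x 0) ≠ ch (d - 2 * δ) (x 1) →
          x 0 ∈ Rw (d - 2 * δ) δ ρ 0 ∧ x 1 ∈ Rw (d - 2 * δ) δ ρ 0)) ∧
      (A 0 = ∅ → Bad3 {1} {2} A → Cnt (us α 0) (hh d) x A → Sht (us α 0) (hh d) δ x A →
        x 0 ∈ Rw (d - 2 * δ) δ ρ 0 → x 1 ∈ Rw (d - 2 * δ) δ ρ 0 →
        2 * d + e ≤ Lt (us α 0) (hh d) x A)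

/-- LOC: the loops are not short and not far away -/
def LocStatement : Prop :=
  ∀ α d : ℝ, Real.pi / 2 < α → α < Real.pi → 0 < d → ∃ R : ℝ, 0 < R ∧
    ∀ (n : ℕ) [NeZero n] (x : Fin n → ℂ) (A : Fin n → Finset (Fin 3)),
      Vis {0, 1} {2} A → Cns (us α 0) (hh d) x A →
        ‖x 0‖ ≤ R * (1 + Ln (us α 0) (hh d) x A) ∧ 1 / R ≤ Ln (us α 0) (hh d) x A

/-! ### Blocks -/

/-- CLA: the mass of the loops is the sum of the fluxes through the half window -/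
def ClaStatement : Prop :=
  ∀ α d : ℝ, Real.pi / 2 < α → α < Real.pi → 0 < d →
    ∃ ρ0 : ℝ, 0 < ρ0 ∧ ∀ ρ : ℝ, 0 < ρ → ρ < ρ0 → ∃ e δ0 : ℝ, 0 < e ∧ 0 < δ0 ∧
    ∀ δ : ℝ, 0 < δ → δ < δ0 → ∀ ε : ℝ, 0 < ε → ∀ n : ℕ, 2 ≤ n →
    ∃ (C : ℝ) (p : ℕ), ∀ τ : Fin n → ℝ, (∀ j, 0 < τ j) →
      (∀ j, τ j * (2 * d + e) ^ 2 ≤ δ ^ 2 * ∑ i, τ i) →
      |VM (us α 0) (hh d) {0, 1} {2} (∑ j, τ j)
        - ∑ j, TT0 α d (d - 2 * δ) δ ρ (τ j) (∑ i, τ i)|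
        ≤ C * (1 + ∑ i, τ i) ^ p / (∑ i, τ i)
          * Real.exp (-((1 - ε) * (2 * d + e) ^ 2 / (4 * ∑ i, τ i)))

/-- MBD: measurability and bounds -/
def MbdStatement : Prop :=
  ∀ α d δ ρ : ℝ, Real.pi / 2 < α → α < Real.pi → 0 < d → 0 < δ → 0 < ρ →
    Measurable (VM (us α 0) (hh d) {0, 1} {2}) ∧
    Measurable (Function.uncurry fun a t => TT0 α d (d - 2 * δ) δ ρ a t) ∧
    ∃ (l0 C : ℝ) (p : ℕ), 0 < l0 ∧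
      (∀ t : ℝ, 0 < t → |VM (us α 0) (hh d) {0, 1} {2} t|
        ≤ C * (1 + t) ^ p * Real.exp (-(l0 ^ 2 / (4 * t)))) ∧
      ∀ a t : ℝ, 0 < a → a < t → |TT0 α d (d - 2 * δ) δ ρ a t|
        ≤ C * (1 + t) ^ p * Real.exp (-(l0 ^ 2 / (4 * t)))

/-- ABS: from the blocks to the Laplace transform (general) -/
def AbsStatement : Prop :=
  ∀ (V : ℝ → ℝ) (T : ℝ → ℝ → ℝ) (l δ l0 C0 ε : ℝ) (p0 : ℕ), 0 < l → 0 < δ → 0 < l0 → 0 < ε →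
    Measurable V → Measurable (Function.uncurry T) →
    (∀ t : ℝ, 0 < t → |V t| ≤ C0 * (1 + t) ^ p0 * Real.exp (-(l0 ^ 2 / (4 * t)))) →
    (∀ a t : ℝ, 0 < a → a < t → |T a t| ≤ C0 * (1 + t) ^ p0 * Real.exp (-(l0 ^ 2 / (4 * t)))) →
    (∀ ε' : ℝ, 0 < ε' → ∀ n : ℕ, 2 ≤ n → ∃ (C : ℝ) (p : ℕ), ∀ τ : Fin n → ℝ, (∀ j, 0 < τ j) →
      (∀ j, τ j * l ^ 2 ≤ δ ^ 2 * ∑ i, τ i) →
      |V (∑ j, τ j) - ∑ j, T (τ j) (∑ i, τ i)|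
        ≤ C * (1 + ∑ i, τ i) ^ p / (∑ i, τ i)
          * Real.exp (-((1 - ε') * l ^ 2 / (4 * ∑ i, τ i)))) →
    ∃ c0 : ℝ, 0 < c0 ∧ ∀ c : ℝ, 0 < c → c < c0 → ∃ C κ0 : ℝ, 0 < κ0 ∧ ∀ κ : ℝ, κ0 ≤ κ →
      |PhiT V κ - κ / c * ∫ t in Set.Ioi (c / κ), Real.exp (-(κ ^ 2 * t)) * T (c / κ) t|
        ≤ C * Real.exp (-(κ * (l - ε)))

/-- BMN: blocks, Laplace transform -/
def BmnStatement : Prop :=
  ∀ α d : ℝ, Real.pi / 2 < α → α < Real.pi → 0 < d →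
    ∃ ρ0 : ℝ, 0 < ρ0 ∧ ∀ ρ : ℝ, 0 < ρ → ρ < ρ0 → ∃ e δ0 : ℝ, 0 < e ∧ 0 < δ0 ∧
    ∀ δ : ℝ, 0 < δ → δ < δ0 →
    ∃ c0 : ℝ, 0 < c0 ∧ ∀ c : ℝ, 0 < c → c < c0 → ∃ C κ0 : ℝ, 0 < κ0 ∧ ∀ κ : ℝ, κ0 ≤ κ →
      |PhiT (VM (us α 0) (hh d) {0, 1} {2}) κ
        - κ / c * ∫ t in Set.Ioi (c / κ), Real.exp (-(κ ^ 2 * t)) *
          TT0 α d (d - 2 * δ) δ ρ (c / κ) t|
        ≤ C * Real.exp (-(κ * (2 * d + e)))

/-! ### Flux -/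

/-- CVT: interchange of the Laplace transform and the integral over the window -/
def CvtStatement : Prop :=
  ∀ α d δ ζ c κ : ℝ, 0 < d → 0 < δ → 3 * δ < d → 0 < c → 0 < κ →
    (∫ t in Set.Ioi (c / κ), Real.exp (-(κ ^ 2 * t)) * TT0 α d (d - 2 * δ) δ ζ (c / κ) t)
      = Real.exp (-(κ * c)) * ∫ x in Rw (d - 2 * δ) δ ζ 0, ∫ y in Rw (d - 2 * δ) δ ζ 0,
        (G (c / κ) (x - y) - G (c / κ) (x - (starRingEnd ℂ) y))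
          * (ch (d - 2 * δ) y - ch (d - 2 * δ) x)
          * ∫ t in Set.Ioi (0 : ℝ), Real.exp (-(κ ^ 2 * t)) *
            kME (us α 0) (hh d) {1} {2} t (rf (us α 0) (hh d) 0 y) x

/-- KER: paths which avoid side `2` and visit side `1` -/
def KerStatement : Prop :=
  ∀ α d κ r r' ψ ψ' : ℝ, 0 < α → α < Real.pi → 0 < κ → 0 < r → 0 < r' →
    0 < ψ → ψ < α → 0 < ψ' → ψ' < α →
    ∫ t in Set.Ioi (0 : ℝ), Real.exp (-(κ ^ 2 * t)) *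
      kME (us α 0) (hh d) {1} {2} t (r * exp (ψ * I)) (r' * exp (ψ' * I))
      = 2 / Real.pi ^ 2 * ∫ τ in Set.Ioi (0 : ℝ), Kit τ (κ * r) * Kit τ (κ * r')
        * Real.sinh (τ * ψ) * Real.sinh (τ * ψ') * mm α τ

/-- JKB: the product of plane waves is bounded and measurable -/
def JkbStatement : Prop :=
  ∀ α κ s : ℝ, Real.pi / 2 < α → α < Real.pi → 0 < κ → 0 < s →
    (Measurable fun p : ℂ × ℂ => AEU.H12.JKr (mm α) (fun τ => -mm α τ) 0 κ p.1 p.2) ∧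
    ∃ M : ℝ, ∀ z x : ℂ, s ≤ z.re → s ≤ x.re → |z.arg| ≤ (2 * α - Real.pi) / 4 →
      |x.arg| ≤ (2 * α - Real.pi) / 4 →
      |AEU.H12.JKr (mm α) (fun τ => -mm α τ) 0 κ z x| ≤ M

/-- SYM: a window which is symmetric with respect to the real axis -/
def SymStatement : Prop :=
  ∀ (a ξ1 δ ζ M : ℝ) (F : ℂ → ℂ → ℝ), 0 < a → Measurable (Function.uncurry F) →
    (∀ x ∈ Rw ξ1 δ ζ ζ, ∀ y ∈ Rw ξ1 δ ζ ζ, |F x y| ≤ M ∧ F ((starRingEnd ℂ) x) y = -F x y ∧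
      F x ((starRingEnd ℂ) y) = -F x y) →
    ∫ x in Rw ξ1 δ ζ 0, ∫ y in Rw ξ1 δ ζ 0, (G a (x - y) - G a (x - (starRingEnd ℂ) y)) * F x y
      = 1 / 2 * ∫ x in Rw ξ1 δ ζ ζ, ∫ y in Rw ξ1 δ ζ ζ, G a (x - y) * F x y

/-- PRN: the angles -/
def PrnStatement : Prop :=
  ∀ α d : ℝ, Real.pi / 2 < α → α < Real.pi → 0 < d →
    ∃ ρ0 : ℝ, 0 < ρ0 ∧ ∀ ρ : ℝ, 0 < ρ → ρ < ρ0 →
    ∃ θ : ℝ, 0 < θ ∧ θ < Real.pi / 2 ∧ 2 * θ < 2 * α - Real.pi ∧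
    ∃ e δ0 : ℝ, 0 < e ∧ 0 < δ0 ∧ ∀ δ : ℝ, 0 < δ → δ < δ0 →
      3 * δ < d ∧ δ < ρ ∧
      (∀ x ∈ Rw (d - 2 * δ) δ ρ ρ,
        d / 2 ≤ x.re ∧ |Complex.arg x| ≤ (2 * α - Real.pi) / 4 ∧
        d / 2 ≤ (2 * d - (starRingEnd ℂ) x).re ∧
        |Complex.arg (2 * d - (starRingEnd ℂ) x)| ≤ (2 * α - Real.pi) / 4) ∧
      2 * d + e ≤ AEU.H12F.Ex d δ δ θ ρ

/-- FLN: the flux -/
def FlnStatement : Prop :=
  ∀ α d : ℝ, Real.pi / 2 < α → α < Real.pi → 0 < d →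
    ∃ ρ0 : ℝ, 0 < ρ0 ∧ ∀ ρ : ℝ, 0 < ρ → ρ < ρ0 → ∃ e δ0 : ℝ, 0 < e ∧ 0 < δ0 ∧
    ∀ δ : ℝ, 0 < δ → δ < δ0 →
    ∃ c0 : ℝ, 0 < c0 ∧ ∀ c : ℝ, 0 < c → c < c0 → ∃ C κ0 : ℝ, 0 < κ0 ∧ ∀ κ : ℝ, κ0 ≤ κ →
      |κ / c * (∫ t in Set.Ioi (c / κ), Real.exp (-(κ ^ 2 * t)) *
          TT0 α d (d - 2 * δ) δ ρ (c / κ) t)
        - 1 / 2 * FN α 0 d κ| ≤ C * Real.exp (-(κ * (2 * d + e)))

/-- FNC: closed form -/
def FncStatement : Prop :=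
  ∀ α d κ : ℝ, Real.pi / 2 < α → α < Real.pi → 0 < d → 0 < κ →
    FN α 0 d κ = AEU.H12.TB d (Real.pi / α) 0 κ

end Pool.Agent.XQ.AH
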