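import Pool.Agent.Helper60_AEU.All
import Pool.Agent.Helper35_XQ.FinAH
import Pool.Agent.Helper47_XQ.Cla
import Pool.Agent.Helper4_XQ.Fln
import Pool.Agent.Helper15_XQ.AhFnc
import Pool.Agent.Helper69_XQ.AhGen
import Pool.Agent.Helper81_XQ.AhJkb
import Pool.Agent.Helper48_XQ.AhKer
import Pool.Agent.Helper17_XQ.AhLoc
import Pool.Agent.Helper69_XQ.AhMbd
import Pool.Agent.Helper17_XQ.AhPrn
import Pool.Agent.Helper4_XQ.Qpk
import Pool.Agent.Helper18_XQ.RefAH
import Pool.Agent.Helper48_XQ.AhSym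
import Pool.Agent.Helper44_XQ.AhCvt
import Pool.Agent.Helper44_XQ.AhBmn
import Pool.Agent.Helper35_XQ.Abs

/-!
Squad XQ (MP_5b0138_an), Part AH (helper35): all modules together.
-/

set_option autoImplicit false

namespace Pool.Agent.XQ.AH

open Pool.Agent.H60K

theorem cla_all : AH.ClaStatement :=
  H47AH.cla (H18.ref (H18.rch H4Q.qpk)) H69.gen H17.loc

theorem mbd_all : AH.MbdStatement := H69.mbd H17.loc

theorem fln_all : AH.FlnStatement :=
  H4F.fln H44.cvt H48.ker H81.jkb H48.sym H17.prn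

theorem abs_all : AH.AbsStatement := H35.abs_of Pool.Agent.H60K.H44.hye Pool.Agent.H60K.H29.lps

theorem germAh_all : GermAhStmt :=
  germAh (H44.bmn cla_all mbd_all abs_all) fln_all H15.fnc H53.inv H25.vex

end Pool.Agent.XQ.AH
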