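import Pool.Agent.Helper35_XQ.AllUD
import Pool.Agent.Helper81_XQ.FcdD
import Pool.Agent.Helper67_XQ.Twf
import Pool.Agent.Helper31_XQ.ARC

/-!
Squad XQ (MP_5b0138_an), part M: the equation (helper35).
-/

set_option autoImplicit false

namespace Pool.Agent.XQ

theorem AllD.fcd : FcdStatement :=
  H81.fcd AllD.ddx AllD.dcx H99.clx (H67.twf arc) arc

theorem AllD.eqn' : EqnStatement := AllD.eqn AllD.fcd

end Pool.Agent.XQ
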