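import Pool.Agent.Helper35_XQ.AllE
import Pool.Agent.Helper35_XQ.AllA

/-!
Squad XQ (MP_5b0138_an), part M: the theorem, from the last three germs (helper35).
-/

set_option autoImplicit false

namespace Pool.Agent.XQ

open MeasureTheory
open Pool.Agent.H16Iso Pool.Agent.AEU
open Pool.Agent.H1Gen (CCW poly)

theorem final (ah : GermAhStmt) (e2 : GermE2Stmt) (e1 : GermE1Stmt) :
    ∀ n : ℕ, 3 ≤ n → ∀ᵐ v : Fin n → ℂ, CCW v →
      ∃ N : ℕ, ∀ Ω : Set ℂ, IsOpen Ω → Convex ℝ Ω → Bornology.IsBounded Ω → Ω.Nonempty →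
        (∀ k, dirEig Ω k = dirEig (poly v) k) ∨
          ((∃ m ≤ n, 3 ≤ m ∧ ∃ w : Fin m → ℂ, CCW w ∧ Ω = poly w) ∧
            ∀ k < N, dirEig Ω k = dirEig (poly v) k) →
        Congruent Ω (poly v) := by
  intro n hn
  filter_upwards [of_germs AllD.eqn' (all_germs ah e2 e1) n hn] with v hv hccw
  obtain ⟨h1, N, h2⟩ := hv hccw
  refine ⟨N, fun Ω h3 h4 h5 h6 h7 => ?_⟩
  rcases h7 with h7 | ⟨⟨m, hm, hm3, w, hw, rfl⟩, h7⟩
  · exact h1 Ω h3 h4 h5 h6 h7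
  · exact h2 m hm3 hm w hw h7

end Pool.Agent.XQ
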