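import Pool.Agent.Helper84_XQ.Ac4
import Pool.Agent.Helper14_XQ.Alx
import Pool.Agent.Helper31_XQ.ARC
import Pool.Agent.Helper25_XQ.ATX
import Pool.Agent.Helper31_XQ.ARZ
import Pool.Agent.Helper84_XQ.Cl3
import Pool.Agent.Helper84_XQ.C4r
import Pool.Agent.Helper60_XQ.Cgx
import Pool.Agent.Helper40_XQ.CL4
import Pool.Agent.Helper87_XQ.CL5
import Pool.Agent.Helper18_XQ.Cqx
import Pool.Agent.Helper52_XQ.Ctx
import Pool.Agent.Helper12_XQ.EVR
import Pool.Agent.Helper29_XQ.Exx
import Pool.Agent.Helper67_XQ.Fcx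
import Pool.Agent.Helper93_XQ.FNX
import Pool.Agent.Helper56_XQ.FRX
import Pool.Agent.Helper63_XQ.GCX
import Pool.Agent.Helper11_XQ.GHX
import Pool.Agent.Helper33_XQ.Unx
import Pool.Agent.Helper88_XQ.LCX
import Pool.Agent.Helper33_XQ.Lmx
import Pool.Agent.Helper60_XQ.Lvx
import Pool.Agent.Helper53_XQ.LXX
import Pool.Agent.Helper63_XQ.MBJ
import Pool.Agent.Helper14_XQ.Nlc
import Pool.Agent.Helper25_XQ.NKX
import Pool.Agent.Helper59_XQ.TBM
import Pool.Agent.Helper67_XQ.Prd
import Pool.Agent.Helper67_XQ.Prx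
import Pool.Agent.Helper33_XQ.Qtx
import Pool.Agent.Helper87_XQ.R9X
import Pool.Agent.Helper11_XQ.RLX
import Pool.Agent.Helper84_XQ.Slx
import Pool.Agent.Helper14_XQ.Spx
import Pool.Agent.Helper56_XQ.T3X
import Pool.Agent.Helper84_XQ.Tax
import Pool.Agent.Helper30_XQ.TO3
import Pool.Agent.Helper30_XQ.TO4
import Pool.Agent.Helper29_XQ.Toe2
import Pool.Agent.Helper84_XQ.Umx
import Pool.Agent.Helper33_XQ.Uql
import Pool.Agent.Helper25_XQ.UTT
import Pool.Agent.Helper59_XQ.UTX
import Pool.Agent.Helper53_XQ.VXX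
import Pool.Agent.Helper84_XQ.Xc
import Pool.Agent.Helper40_XQ.XE

/-!
Squad XQ (MP_5b0138_an), part M: the geometric part G (helper35).
-/

set_option autoImplicit false

namespace Pool.Agent.XQ.AllG

open Pool.Agent.AEU.H69 (sup hul per lamS)
open Pool.Agent.AEU.H72 (act)

theorem k4 : K4xStatement := k4x unx

theorem ev : EvrStatement := evr unx

theorem sl : SlxStatement := H84.slx vxx

theorem um : UmxStatement := H84.umx sup hul lamS per

theorem t3 : T3xStatement := H56.t3x vxx sl

theorem c3 : Cl3Statement := H84.cl3 vxx hul lamS per sl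

theorem ta : TaxStatement := H84.tax vxx hul per

theorem tb : TbxStatement := H84.tbx vxx hul per

theorem br : BrxStatement := H84.brx vxx hul per

theorem c4 : Cl4Statement := cl4 vxx lcx

theorem c5 : Cl5Statement := cl5 vxx lcx sl

theorem cr : C4rStatement := H84.c4r hul per

theorem gh : GhxStatement := H11.ghx vxx

theorem pl : PlcStatement := plc lxx

theorem xC : XcStatement := H84.xc hul lamS act cr H84.ac4 gh pl k4

theorem xE : XeStatement := xe vxx lcx sl unx k4 gh pl

theorem xF : XfStatement := H84.xf vxx hul lamS lcx k4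

theorem qt : QtxStatement := qtx vxx lcx lxx sl unx k4

theorem cq : CqxStatement := cqx ev c5 c4 xC xE xF qt

theorem cp : CpxStatement := cpx ev c5 c4 cr

theorem uq : UqlStatement := uql ev vxx unx k4 lxx sl cq

theorem lm : LmxStatement := lmx ev unx t3 cq cp uq

theorem toe : ToeStatement := H29.toe vxx sl arc arz

theorem ct : CtxStatement := ctx vxx cp cq toe (H30.to3 vxx sl arc arz) (H30.to4 vxx sl arc)

theorem rl : RlxStatement := H11.rlxs ev unx lxx um t3 uq lm tbm

theorem mj : MbjStatement := mbj ev unx rl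

theorem nl : NlcStatement := nlc H29.exx

theorem al : AlxStatement := alx vxx nl

theorem nk : NkxStatement := nkx vxx gh c3 ta tb br al

theorem np : NkpStatement := nkp nk

theorem px : PrxStatement := H67.prx vxx cq

theorem pd : PrdStatement := H67.prd vxx px

theorem fc : FcxStatement := H67.fcx vxx cq

theorem r9 : R9xStatement := r9x vxx unx tb

theorem gc : GcxStatement := gcx vxx ev gh uq lm rl mj tbm nk

theorem sp : SpxStatement := spx ev mj tbm utx nl nk np H56.frx pd fc r9 gc lm

theorem fn : FnxStatement := H93.fnx ev unx um t3 uq lm gh rl c3 ta tb nl H29.exx nk np px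

theorem lv : LvxStatement := lvx vxx gh (atx vxx) (utt vxx) cgx

end Pool.Agent.XQ.AllG
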