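import Pool.Agent.Helper12_XQ.AltA
import Pool.Agent.Helper12_XQ.CoreA
import Pool.Agent.Helper12_XQ.Four
import Pool.Agent.Helper48_XQ.AltB
import Pool.Agent.Helper48_XQ.RegB
import Pool.Agent.Helper59_XQ.CoreB
import Pool.Agent.Helper54_XQ.Dbd
import Pool.Agent.Helper54_XQ.Lca
import Pool.Agent.Helper54_XQ.Sing
import Pool.Agent.Helper54_XQ.Sinx
import Pool.Agent.Helper47_XQ.Fser
import Pool.Agent.Helper47_XQ.Mono
import Pool.Agent.Helper81_XQ.Hol
import Pool.Agent.Helper53_XQ.Lead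
import Pool.Agent.Helper53_XQ.GNX
import Pool.Agent.Helper53_XQ.DDX
import Pool.Agent.Helper81_XQ.Key
import Pool.Agent.Helper13_XQ.Rep
import Pool.Agent.Helper18_XQ.Sep
import Pool.Agent.Helper99_XQ.CLX
import Pool.Agent.Helper67_XQ.Dcx
import Pool.Agent.Helper27_XQ.Dns
import Pool.Agent.Helper27_XQ.Jlb
import Pool.Agent.Helper69_XQ.DPX
import Pool.Agent.Helper69_XQ.LWX
import Pool.Agent.Helper33_XQ.Eqn2
import Pool.Agent.Helper33_XQ.Qua
import Pool.Agent.Helper33_XQ.Trx
import Pool.Agent.Helper76_XQ.Exh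
import Pool.Agent.Helper76_XQ.Msx
import Pool.Agent.Helper35_AEU.Main

/-!
Squad XQ (MP_5b0138_an), part M: the parts U and D (helper35).
-/

set_option autoImplicit false

namespace Pool.Agent.XQ

open Pool.Agent.XQ.U in
theorem AllU.hol : HolStmt := H81.hol (H47.fser H54.sinx H12.four)

open Pool.Agent.XQ.U in
theorem AllU.core : CoreAStmt := H12.corea AllU.hol H54.sing H47.mono H54.dbd

open Pool.Agent.XQ.U in
/-- the uniqueness statement of part U -/
theorem AllU.u : UStmt :=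
  H18.uasm H18.sep (H12.altA H53.leadA H13.rep H54.dbd AllU.hol H54.lca AllU.core)
    (H48.altB H48.regB H59.coreB H53.leadB)

theorem AllD.dcx : DcxStatement := H67.dcx H99.clx

theorem AllD.ddx : DdxStatement := XQ.ddx qua dpx

theorem AllD.eqn (fcd : FcdStatement) : EqnStatement :=
  XQ.eqn qua dpx AllD.dcx (H27D.dns gnx fcd) H76.msx trx lwx H76.exh
    (H27J.jlb Pool.Agent.AEU.H35.ldStmt)

end Pool.Agent.XQ
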