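import Pool.Agent.Helper35_XQ.Core
import Pool.Agent.Helper35_AEU.Cvx
import Pool.Agent.Helper29_XQ.Stmt
import Pool.Agent.Helper29_AEU.GencEnd

/-!
Squad XQ (MP_5b0138_an), Part M (helper35): the theorem, from the parts.
-/

set_option autoImplicit false

namespace Pool.Agent.XQ

open MeasureTheory Complex Filter Topology Pool.Agent.H62T
open Pool.Agent.H16Iso Pool.Agent.AEU
open Pool.Agent.H1Gen (CCW poly)
open Pool.Agent.H62T.H85 (nrm off)

theorem isTriangle_poly {v : Fin 3 → ℂ} (hv : CCW v) : IsTriangle (poly v) := by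
  refine ⟨v 0, v 1, v 2, AEU.H35.not_collinear (hv 0 1 2 (by decide) (by decide)), ?_⟩
  unfold H1Gen.poly
  rw [AEU.H35.range3]

theorem congruent_symm {A B : Set ℂ} (h : Congruent A B) : Congruent B A := by
  obtain ⟨g, hg⟩ := h
  refine ⟨g.symm, ?_⟩
  rw [← hg, ← Set.image_comp]
  have : (g.symm : ℂ → ℂ) ∘ (g : ℂ → ℂ) = id := by
    funext x
    exact g.symm_apply_apply x
  rw [this, Set.image_id]

/-- the theorem, from the comparison of polygons with at least four sides -/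
theorem main_of_core
    (hcore : ∀ P Q : Finset HP, GenX P → Pg Q → 4 ≤ P.card → 4 ≤ Q.card →
      (∀ᵐ ω ∂PP, NoTie P (hs ω)) → (∀ k, dirEig (opn P) k = dirEig (opn Q) k) →
      ∃ g : Iso2, P.image (mv g) = Q)
    (hgen : H29.GenXStatement) :
    ∀ n : ℕ, 3 ≤ n → ∀ᵐ v : Fin n → ℂ, CCW v →
      (∀ Ω : Set ℂ, IsOpen Ω → Convex ℝ Ω → Bornology.IsBounded Ω → Ω.Nonempty →
        (∀ k, dirEig Ω k = dirEig (poly v) k) → Congruent Ω (poly v)) ∧
      ∃ N : ℕ, ∀ m : ℕ, 3 ≤ m → m ≤ n → ∀ w : Fin m → ℂ, CCW w →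
        (∀ k < N, dirEig (poly w) k = dirEig (poly v) k) → Congruent (poly w) (poly v) := by
  intro n hn
  have hz : NeZero n := ⟨by omega⟩
  obtain ⟨G, hG, hmain⟩ := AEU.H35.main_final
  filter_upwards [hgen n hn, AEU.H8.tieV hn, (hG n hn).2] with v g1 g2 g3 hv
  have gx := g1 hv
  have gt := g2 hv
  obtain ⟨N, hN⟩ := hmain n hn v (g3 hv)
  refine ⟨fun Ω hop hcv hbd hne hiso => ?_, N, fun m h3 hm w hw hk =>
    (hN m h3 w hw (Or.inl ⟨hm, hk⟩)).2⟩
  have hP : IsConvexPolygon Ω :=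
    GB.poly_all Ω ⟨hop, hcv, hbd, hne⟩ _ (AEU.H35.is_poly hn hv) hiso
  obtain ⟨m, hm, w, hw, hΩ⟩ := AEU.H35.ccw_list hP
  subst hΩ
  have hz' : NeZero m := ⟨by omega⟩
  -- triangles
  rcases Nat.lt_or_ge n 4 with h | h
  · obtain rfl : n = 3 := by omega
    exact congruent_symm (H62T.main_of H62T.H85.dn _ _ (isTriangle_poly hv)
      (AEU.H35.is_poly hm hw) fun k => (hiso k).symm)
  rcases Nat.lt_or_ge m 4 with h' | h'
  · obtain rfl : m = 3 := by omega
    exact H62T.main_of H62T.H85.dn _ _ (isTriangle_poly hw) (AEU.H35.is_poly hn hv) hiso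
  -- at least four sides
  have hQ : Pg (sides (nrm w) (off w)) := AEU.H29.pg_sides hm hw (AEU.H35.side_inj hm hw)
  obtain ⟨g, hg⟩ := hcore (sides (nrm v) (off v)) (sides (nrm w) (off w)) gx hQ
    (by rw [AEU.H35.card_sides hn hv]; exact h) (by rw [AEU.H35.card_sides hm hw]; exact h') gt
    (fun k => by rw [AEU.H35.opn_poly hn hv, AEU.H35.opn_poly hm hw, hiso])
  have h5 := AEU.H35.opn_mv hg
  rw [AEU.H35.opn_poly hn hv, AEU.H35.opn_poly hm hw] at h5
  exact congruent_symm ⟨g.toIsometryEquiv, h5⟩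

end Pool.Agent.XQ
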