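import Pool.Agent.Helper35_XQ.AllG
import Pool.Agent.Helper35_XQ.AllUD
import Pool.Agent.Helper35_XQ.MainOf
import Pool.Agent.Helper1_XQ.Nst
import Pool.Agent.Helper72_XQ.Itg
import Pool.Agent.Helper72_XQ.Ite
import Pool.Agent.Helper99_XQ.KEX
import Pool.Agent.Helper74_XQ.Fb

/-!
Squad XQ (MP_5b0138_an), part M: the theorem, from the germs (helper35).
-/

set_option autoImplicit false

namespace Pool.Agent.XQ

open MeasureTheory Complex Filter Topology Pool.Agent.H62T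
open Pool.Agent.H16Iso Pool.Agent.AEU
open Pool.Agent.H1Gen (CCW poly)

theorem of_germs (hEQN : EqnStatement) (g : Germs) :
    ∀ n : ℕ, 3 ≤ n → ∀ᵐ v : Fin n → ℂ, CCW v →
      (∀ Ω : Set ℂ, IsOpen Ω → Convex ℝ Ω → Bornology.IsBounded Ω → Ω.Nonempty →
        (∀ k, dirEig Ω k = dirEig (poly v) k) → Congruent Ω (poly v)) ∧
      ∃ N : ℕ, ∀ m : ℕ, 3 ≤ m → m ≤ n → ∀ w : Fin m → ℂ, CCW w →
        (∀ k < N, dirEig (poly w) k = dirEig (poly v) k) → Congruent (poly w) (poly v) :=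
  main_of_core (fun P Q hP hQ h4 h4' hNT hiso => core AllG.lv AllG.ct AllG.sp hEQN H81.key AllG.fn
    AllU.u H72.itg H72.itE H99.kex H74.fb g P Q hP hQ h4 h4' hNT hiso) H1.genXThm

end Pool.Agent.XQ
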