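import Pool.Agent.Helper16_XQ.StmtD
import Pool.Agent.Helper16_XQ.StmtG
import Pool.Agent.Helper16_XQ.Ana2

/-!
Squad XQ (MP_5b0138_an), Part M (helper35): a generic polygon is congruent to every isospectral
convex polygon with at least four sides.
-/

set_option autoImplicit false

namespace Pool.Agent.XQ

open MeasureTheory Complex Filter Topology Pool.Agent.H62T
open Pool.Agent.H16Iso Pool.Agent.AEU

/-- the germs -/
structure Germs : Prop where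
  a : GermAStmt
  b : GermBStmt
  b' : GermB'Stmt
  dx : GermDXStmt
  iso : GermIsoStmt
  ah : GermAhStmt
  br : GermBrStmt
  e2 : GermE2Stmt
  e1 : GermE1Stmt
  g3 : Germ3Stmt
  g4 : Germ4Stmt

theorem core (hLVX : LvxStatement) (hCTX : CtxStatement) (hSPX : SpxStatement)
    (hEQN : EqnStatement) (hKEY : KeyStatement) (hFNX : FnxStatement) (hU : UStmt)
    (hITG : ItgStatement) (hITE : IteStatement) (hKEX : KexStatement) (hFB : FbStmt) (g : Germs)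
    (P Q : Finset HP) (hP : GenX P) (hQ : Pg Q) (h4 : 4 ≤ P.card) (h4' : 4 ≤ Q.card)
    (hNT : ∀ᵐ ω ∂PP, NoTie P (hs ω)) (hiso : ∀ k, dirEig (opn P) k = dirEig (opn Q) k) :
    ∃ g : Iso2, P.image (mv g) = Q := by
  by_contra hcon
  obtain ⟨L, L0, hH, hnot⟩ := hLVX P Q hP hQ hcon
  obtain ⟨TP, TQ, cP, cQ, KP, KQ, hC⟩ := hCTX P Q L hP hQ hH L0 h4 h4'
  obtain ⟨δ, M, NP, NQ, γ, hS, -, hNP, hNQ⟩ := hSPX P Q L TP TQ cP cQ KP KQ hC
  obtain ⟨J, hJ, hsm⟩ := hEQN hFB P Q L δ M NP NQ TP TQ cP cQ KP KQ γ hP hQ hS hNT hiso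
  obtain ⟨k1, rfl, rfl, k4⟩ := hKEY hU hITG hITE hKEX g.a g.b g.b' g.dx g.iso g.ah g.br g.e2 g.e1
    g.g3 g.g4 P Q L δ M NP NQ TP TQ cP cQ KP KQ γ hP hS J (hJ.imp (fun h => h.1) id) hsm
  rcases hJ with ⟨-, hF⟩ | hJ
  swap
  · exact k1 hJ
  have hTB : ∀ (c : Finset HP → HP → ℝ) (S : Finset HP), ¬ TB ∅ c S := by
    rintro c S ⟨F, hF, -⟩
    exact absurd hF (Finset.notMem_empty F)
  refine hnot (hFNX P Q L cP cQ KP KQ hC hF NP NQ (fun S => ?_) (fun S => ?_) k4)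
  · rw [hNP S]
    constructor
    · rintro ⟨a, b, c, d, -⟩
      exact ⟨a, b, c, d⟩
    · rintro ⟨a, b, c, d⟩
      exact ⟨a, b, c, d, hTB _ _⟩
  · rw [hNQ S]
    constructor
    · rintro ⟨a, b, c, d, -⟩
      exact ⟨a, b, c, d⟩
    · rintro ⟨a, b, c, d⟩
      exact ⟨a, b, c, d, hTB _ _⟩

end Pool.Agent.XQ
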