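import Pool.Agent.Helper60_AEU.Stmt
import Pool.Agent.Helper16_XQ.Ana

/-!
Squad XQ (MP_5b0138_an), Part A2 (helper35): definitions for the germs of acute triangles without a
unique largest angle (GDX) and of isosceles triangles (GIS).

A path visits the label `s : Fin 3` when it leaves the open half-plane `ip (u s) x < h s`. Words
are lists of labels without repetitions. Reading a point erases the initial letters of the word
which are labels of this point. The label of a path is the map which sends a word to the rest which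
remains after reading the whole path.
-/

set_option autoImplicit false

namespace Pool.Agent.XQ.GI

open MeasureTheory Complex Filter Topology Pool.Agent.H62T Pool.Agent.H60K
open scoped ENNReal NNReal

/-! ### Words and labels -/

/-- words without repetitions -/
abbrev Wd : Type := {l : List (Fin 3) // l.Nodup}

/-- reading a point with the labels `c` -/
def rd (c : Finset (Fin 3)) (w : Wd) : Wd :=
  ⟨w.1.dropWhile (fun s => decide (s ∈ c)), w.2.sublist (List.dropWhile_sublist _)⟩

/-- labels of paths -/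
abbrev Lb : Type := Wd → Wd

/-- reading a sequence of points -/
def run (l : List (Finset (Fin 3))) : Lb := fun w => l.foldl (fun v c => rd c v) w

/-- labels which occur -/
def Rz (f : Lb) : Prop := ∃ l : List (Finset (Fin 3)), l ≠ [] ∧ f = run l

/-- the empty word -/
def em : Wd := ⟨[], List.nodup_nil⟩

/-- word with one letter -/
def sg (s : Fin 3) : Wd := ⟨[s], List.nodup_singleton s⟩

/-- the word `0 1 2` -/
def w012 : Wd := ⟨[0, 1, 2], by decide⟩

/-- the word `1 2 0` -/
def w120 : Wd := ⟨[1, 2, 0], by decide⟩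

/-- the word `2 0 1` -/
def w201 : Wd := ⟨[2, 0, 1], by decide⟩

/-- the word `2 1 0` -/
def w210 : Wd := ⟨[2, 1, 0], by decide⟩

/-- the word `1 0 2` -/
def w102 : Wd := ⟨[1, 0, 2], by decide⟩

/-- the word `0 2 1` -/
def w021 : Wd := ⟨[0, 2, 1], by decide⟩

open Classical in
/-- the visited labels -/
noncomputable def vs (f : Lb) : Finset (Fin 3) := Finset.univ.filter fun s => f (sg s) = em

/-- the loop visits `0`, `1`, `2` in this cyclic order -/
def Lp (f : Lb) : Prop := f w012 = em ∨ f w120 = em ∨ f w201 = em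

/-- the loop visits `2`, `1`, `0` in this cyclic order -/
def Lm (f : Lb) : Prop := f w210 = em ∨ f w102 = em ∨ f w021 = em

/-- letterwise action of a permutation on words -/
def pw3 (σ : Equiv.Perm (Fin 3)) (w : Wd) : Wd := ⟨w.1.map σ, w.2.map σ.injective⟩

/-- action of a permutation on labels -/
def pl (σ : Equiv.Perm (Fin 3)) (f : Lb) : Lb := fun w => pw3 σ (f (pw3 σ⁻¹ w))

/-- composition of the labels of consecutive blocks -/
def cp {n : ℕ} (A : Fin n → Lb) : Lb := fun w => (List.ofFn A).foldl (fun v f => f v) w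

/-! ### Kernels -/

open Classical in
/-- the labels of a point -/
noncomputable def lb (u : Fin 3 → ℂ) (h : Fin 3 → ℝ) (x : ℂ) : Finset (Fin 3) :=
  Finset.univ.filter fun s => h s ≤ ip (u s) x

open Classical in
/-- kernel of the chains with `2 ^ m` steps and label `f` -/
noncomputable def KF (u : Fin 3 → ℂ) (h : Fin 3 → ℝ) : ℕ → Lb → ℝ → ℂ → ℂ → ℝ
  | 0, f, t, x, y => if f = (fun w => rd (lb u h y) (rd (lb u h x) w)) then G t (x - y) else 0
  | m + 1, f, t, x, y => ∑ f₁ : Lb, ∑ f₂ : Lb, if f = (fun w => f₂ (f₁ w)) then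
      ∫ z, KF u h m f₁ (t / 2) x z * KF u h m f₂ (t / 2) z y else 0

/-- kernel of the paths with label `f` -/
noncomputable def KO (u : Fin 3 → ℂ) (h : Fin 3 → ℝ) (f : Lb) (t : ℝ) (x y : ℂ) : ℝ :=
  if 0 < t then limUnder atTop (fun m => KF u h m f t x y) else 0

open Classical in
/-- mass of the loops of duration `t` whose label satisfies `P` -/
noncomputable def LM (u : Fin 3 → ℂ) (h : Fin 3 → ℝ) (P : Lb → Prop) (t : ℝ) : ℝ≥0∞ :=
  ∫⁻ x, ENNReal.ofReal (∑ f : Lb, if P f then KO u h f t x x else 0)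

/-- density of the loops with `n` blocks of duration `a` -/
noncomputable def wO {n : ℕ} [NeZero n] (u : Fin 3 → ℂ) (h : Fin 3 → ℝ) (a : ℝ) (x : Fin n → ℂ)
    (A : Fin n → Lb) : ℝ := ∏ j, KO u h (A j) a (x j) (x (j + 1))

open Classical in
/-- mass of a set of loops with `n` blocks of duration `a` -/
noncomputable def MO {n : ℕ} [NeZero n] (u : Fin 3 → ℂ) (h : Fin 3 → ℝ) (a : ℝ)
    (S : (Fin n → ℂ) → (Fin n → Lb) → Prop) : ℝ≥0∞ :=
  ∑ A, ∫⁻ x, if S x A then ENNReal.ofReal (wO u h a x A) else 0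

/-- operator of one block -/
noncomputable def Op (u : Fin 3 → ℂ) (h : Fin 3 → ℝ) (a : ℝ) (φ : Wd → ℂ → ℝ) (w : Wd) (z : ℂ) :
    ℝ := ∑ f : Lb, ∫ y, KO u h f a z y * φ (f w) y

open Classical in
/-- kernel of the paths from `z` to `x` with `k + 1` blocks of duration `a` which read the whole
word `w` -/
noncomputable def UO (u : Fin 3 → ℂ) (h : Fin 3 → ℝ) (a : ℝ) : ℕ → Wd → ℂ → ℂ → ℝ
  | 0, w, z, x => ∑ f : Lb, if f w = em then KO u h f a z x else 0
  | k + 1, w, z, x => Op u h a (fun v y => UO u h a k v y x) w z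

/-! ### Reflections and foldings -/

/-- reflection in the line `ip n y = k` -/
noncomputable def rfl1 (n : ℂ) (k : ℝ) (y : ℂ) : ℂ := y - ((2 * (ip n y - k) : ℝ) : ℂ) * n

open Classical in
/-- folding of the plane onto the half-plane `h s ≤ ip (u s) y` -/
noncomputable def fo1 (u : Fin 3 → ℂ) (h : Fin 3 → ℝ) (s : Fin 3) (y : ℂ) : ℂ :=
  if h s ≤ ip (u s) y then y else rf u h s y

/-- successive foldings, the last letter first -/
noncomputable def fo (u : Fin 3 → ℂ) (h : Fin 3 → ℝ) (w : List (Fin 3)) (y : ℂ) : ℂ :=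
  w.foldr (fun s z => fo1 u h s z) y

/-! ### Cutting the loops -/

/-- the left half-plane -/
noncomputable def c0 (x : ℂ) : ℝ := if x.re < 0 then 1 else 0

/-- the blocks after block `j`, in their order, read the word `0 1 2` -/
def FO {n : ℕ} [NeZero n] (A : Fin n → Lb) (j : Fin n) : Prop :=
  (List.ofFn fun i : Fin (n - 1) => A (j + Fin.ofNat n (i.1 + 1))).foldl (fun v f => f v) w012 = em

/-- the cut is adapted to the visits -/
def Ad {n : ℕ} [NeZero n] (x : Fin n → ℂ) (B : Fin n → Finset (Fin 3)) : Prop :=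
  (∀ j, 0 ∈ B j → (x j).re < 0 ∧ (x (j + 1)).re < 0) ∧
    ∀ j, 2 ∈ B j → 0 ≤ (x j).re ∧ 0 ≤ (x (j + 1)).re

/-- there is no cyclic pattern `0 2 0 2` -/
def Nl {n : ℕ} [NeZero n] (B : Fin n → Finset (Fin 3)) : Prop :=
  ∀ (j : Fin n) (a b c : ℕ), 0 < a → a < b → b < c → c < n → 0 ∈ B j →
    2 ∈ B (j + Fin.ofNat n a) → 0 ∈ B (j + Fin.ofNat n b) → 2 ∉ B (j + Fin.ofNat n c)

/-- a cyclic pattern which contains `0 1 2` and `2 1 0`: some label `p` is visited twice, and
between these visits both other labels `q`, `r` are visited, one on each side (visits in the same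
block are allowed) -/
def Db {n : ℕ} [NeZero n] (B : Fin n → Finset (Fin 3)) : Prop :=
  ∃ (p q r : Fin 3) (j : Fin n) (a b c : ℕ), p ≠ q ∧ q ≠ r ∧ r ≠ p ∧ a ≤ b ∧ b ≤ c ∧ c ≤ n ∧
    p ∈ B j ∧ q ∈ B (j + Fin.ofNat n a) ∧ p ∈ B (j + Fin.ofNat n b) ∧ r ∈ B (j + Fin.ofNat n c)

open Classical in
/-- the flux through block `0` -/
noncomputable def TI (n : ℕ) [NeZero n] (u : Fin 3 → ℂ) (h : Fin 3 → ℝ) (t : ℝ) : ℝ :=
  ∑ A : Fin n → Lb, ∫ x : Fin n → ℂ, (c0 (x 1) - c0 (x 0)) *
    (if FO A 0 then wO u h (t / n) x A else 0)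

/-- the same, with the kernel of the other blocks -/
noncomputable def TU (n : ℕ) (u : Fin 3 → ℂ) (h : Fin 3 → ℝ) (t : ℝ) : ℝ :=
  ∫ p : ℂ × ℂ, (c0 p.2 - c0 p.1) * G (t / n) (p.1 - p.2) * UO u h (t / n) (n - 2) w012 p.2 p.1

/-! ### The isosceles triangle -/

/-- normals: base angles `α`, the sides `0`, `1`, `2` are the left side, the base, the right side -/
noncomputable def uI (α : ℝ) (s : Fin 3) : ℂ :=
  if s = 0 then ⟨-Real.sin α, Real.cos α⟩ else if s = 1 then ⟨0, -1⟩ else
    ⟨Real.sin α, Real.cos α⟩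

/-- support numbers: the base is the segment from `- b / 2` to `b / 2` -/
noncomputable def hI (α b : ℝ) (s : Fin 3) : ℝ := if s = 1 then 0 else b / 2 * Real.sin α

/-- density of the normal distribution with variance `2 t` -/
noncomputable def gg (t p : ℝ) : ℝ := Real.exp (-(p ^ 2) / (4 * t)) / √(4 * Real.pi * t)

/-- perimeter of the orthic triangle -/
noncomputable def lo (α b : ℝ) : ℝ := 2 * b * Real.sin α ^ 2

/-- twice the altitude from the ends of the base -/
noncomputable def La (α b : ℝ) : ℝ := 2 * b * Real.sin α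

/-- length of the loops with the pattern `0 2 0 2` -/
noncomputable def Lq (α b : ℝ) : ℝ := -(b * Real.tan α * Real.cos (3 * α))

/-- a length larger than `La α b` for `π / 3 < α` -/
noncomputable def Lz (α b : ℝ) : ℝ := min (Lq α b) (-(2 * b * Real.sin α ^ 2 / Real.cos (2 * α)))

/-- reflection in the origin of the vertex `1 2`, followed by the reflection in the line `0` -/
noncomputable def g2 (α b : ℝ) (x : ℂ) : ℂ := rf (uI α) (hI α b) 0 (b - x)

/-- reflection in the line `2`, followed by the reflection in the vertex `0 1` -/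
noncomputable def g1 (α b : ℝ) (x : ℂ) : ℂ := -b - rf (uI α) (hI α b) 2 x

/-- glide reflection along the orthic triangle -/
noncomputable def g0 (α b : ℝ) (x : ℂ) : ℂ :=
  ⟨x.re - lo α b, 2 * (b * Real.sin α * Real.cos α) - x.im⟩

end Pool.Agent.XQ.GI
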