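import Pool.Agent.Helper35_XQ.AllF
import Pool.Agent.Helper35_XQ.AllAH
import Pool.Agent.Helper36_XQ.AllE

/-!
Squad XQ (MP_5b0138_an): the theorem (helper35).
-/

set_option autoImplicit false

namespace Pool.Agent.XQ

open MeasureTheory
open Pool.Agent.H16Iso Pool.Agent.AEU
open Pool.Agent.H1Gen (CCW poly)

theorem done :
    ∀ n : ℕ, 3 ≤ n → ∀ᵐ v : Fin n → ℂ, CCW v →
      ∃ N : ℕ, ∀ Ω : Set ℂ, IsOpen Ω → Convex ℝ Ω → Bornology.IsBounded Ω → Ω.Nonempty →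
        (∀ k, dirEig Ω k = dirEig (poly v) k) ∨
          ((∃ m ≤ n, 3 ≤ m ∧ ∃ w : Fin m → ℂ, CCW w ∧ Ω = poly w) ∧
            ∀ k < N, dirEig Ω k = dirEig (poly v) k) →
        Congruent Ω (poly v) :=
  final AH.germAh_all K4.germE2_all K4.germE1_all

end Pool.Agent.XQ
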