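import Pool.Agent.Helper35_XQ.Stmt
import Pool.Agent.Helper60_AEU.Gb4

/-!
Squad XQ (MP_5b0138_an), Part A2 (helper35): assembly of GDX and GIS.
-/

set_option autoImplicit false

namespace Pool.Agent.XQ.GI

open MeasureTheory Complex Filter Topology Pool.Agent.H62T Pool.Agent.H60K
open scoped ENNReal NNReal

theorem gis (hV : VbdStatement) (hL : LpiStatement) (hR : RedStatement) (hlen : LenStatement)
    (hm : ∀ α b : ℝ, Measurable (VM (uI α) (hI α b) Finset.univ ∅)) : GermIsoStmt := by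
  intro u₁ u₂ u₃ D₀ n1 n2 n3 d12 d23 d31 i12 i23 i31 hD he hlt
  obtain ⟨α, b, a1, a2, hb, a3, e1, e2, e3⟩ :=
    hR u₁ u₂ u₃ D₀ n1 n2 n3 d12 d23 d31 i12 i23 i31 hD he hlt.le
  obtain ⟨⟨C, p, hC, v1⟩, v2, -⟩ := hV α b a1 a2 hb
  obtain ⟨c, t0, hc, ht0, v3⟩ := v2 (a3 hlt)
  obtain ⟨l1, l2, -⟩ := hlen α b a1 a2 hb
  have hlo : 0 < lo α b := by rw [e1]; linarith
  obtain ⟨h1, -⟩ := hL (VM (uI α) (hI α b) Finset.univ ∅) (lo α b) (La α b) C c t0 p (hm α b) hlo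
    l2 ht0 v1
  obtain ⟨c', κ0, hc', hκ0, h2⟩ := h1 hc v3
  refine ⟨c', κ0, hc', hκ0, fun κ hκ => ?_⟩
  have h3 := h2 κ hκ
  rw [e3 κ]
  unfold AEU.germD
  rw [e2, e1] at h3
  linarith

lemma gdx1 (hV : VbdStatement) (hL : LpiStatement) (hR : RedStatement) (hlen : LenStatement)
    (hm : ∀ α b : ℝ, Measurable (VM (uI α) (hI α b) Finset.univ ∅)) {u₁ u₂ u₃ : ℂ} {D₀ L : ℝ}
    (n1 : ‖u₁‖ = 1) (n2 : ‖u₂‖ = 1) (n3 : ‖u₃‖ = 1) (d12 : 0 < dt u₁ u₂) (d23 : 0 < dt u₂ u₃)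
    (d31 : 0 < dt u₃ u₁) (i12 : ip u₁ u₂ < 0) (i23 : ip u₂ u₃ < 0) (i31 : ip u₃ u₁ < 0)
    (hD : 0 < D₀) (he : dt u₁ u₂ = dt u₂ u₃) (hle : dt u₃ u₁ ≤ dt u₁ u₂)
    (hL1 : L * dt u₁ u₂ < 2 * D₀) :
    AEU.Small L fun κ => AEU.Lap (AEU.EZ u₁ u₂ u₃ D₀) κ - AEU.germD (2 * D₀) κ := by
  obtain ⟨α, b, a1, a2, hb, a3, e1, e2, e3⟩ :=
    hR u₁ u₂ u₃ D₀ n1 n2 n3 d12 d23 d31 i12 i23 i31 hD he hle
  obtain ⟨⟨C, p, hC, v1⟩, -, v2⟩ := hV α b a1 a2 hb
  obtain ⟨l1, l2, -⟩ := hlen α b a1 a2 hb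
  have hlo : 0 < lo α b := by rw [e1]; linarith
  have hLa : L < La α b := by
    rw [e2, lt_div_iff₀ d12]
    exact hL1
  -- the precision
  set L1 : ℝ := max ((L + La α b) / 2) ((lo α b + La α b) / 2) with hL1d
  have b1 : L1 < La α b := by
    rw [hL1d]
    exact max_lt (by linarith) (by linarith)
  have b2 : lo α b < L1 := by
    rw [hL1d]
    exact lt_of_lt_of_le (by linarith) (le_max_right _ _)
  have b3 : L < L1 := by
    rw [hL1d]
    exact lt_of_lt_of_le (by linarith) (le_max_left _ _)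
  obtain ⟨C1, t0, ht0, v3⟩ := v2 (La α b - L1) (by linarith) (by linarith)
  have v1' : ∀ t : ℝ, 0 < t → 0 ≤ VM (uI α) (hI α b) Finset.univ ∅ t ∧
      VM (uI α) (hI α b) Finset.univ ∅ t ≤ max C C1 * (1 + t) ^ p := by
    intro t ht
    refine ⟨(v1 t ht).1, (v1 t ht).2.trans ?_⟩
    gcongr
    exact le_max_left _ _
  have v3' : ∀ t : ℝ, 0 < t → t < t0 →
      |VM (uI α) (hI α b) Finset.univ ∅ t - lo α b * gg t (lo α b)|
        ≤ max C C1 * Real.exp (-(L1 ^ 2 / (4 * t))) := by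
    intro t ht ht'
    have h := v3 t ht ht'
    have e : La α b - (La α b - L1) = L1 := by ring
    rw [e] at h
    refine h.trans ?_
    gcongr
    exact le_max_right _ _
  obtain ⟨-, h1⟩ := hL (VM (uI α) (hI α b) Finset.univ ∅) (lo α b) L1 (max C C1) 1 t0 p (hm α b)
    hlo b2 ht0 v1'
  obtain ⟨C', κ0, hκ0, h2⟩ := h1 v3' ((L + L1) / 2) (by linarith)
  refine ⟨C', (L1 - L) / 2, by linarith, ?_⟩
  filter_upwards [eventually_ge_atTop κ0] with κ hκ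
  have h3 := h2 κ hκ
  rw [e3 κ]
  unfold AEU.germD
  have e4 : -PhiT (VM (uI α) (hI α b) Finset.univ ∅) κ - -Real.exp (-(2 * D₀ * κ))
      = -(PhiT (VM (uI α) (hI α b) Finset.univ ∅) κ - Real.exp (-(lo α b * κ))) := by
    rw [e1]; ring
  rw [e4, abs_neg]
  have e5 : (L + (L1 - L) / 2) * κ = (L + L1) / 2 * κ := by ring
  rw [e5]
  exact h3

theorem gdx (hV : VbdStatement) (hL : LpiStatement) (hR : RedStatement) (hlen : LenStatement)
    (hm : ∀ α b : ℝ, Measurable (VM (uI α) (hI α b) Finset.univ ∅)) (hB' : AEU.GermB'Stmt) :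
    GermDXStmt := by
  intro u₁ u₂ u₃ D₀ L n1 n2 n3 d12 d23 d31 i12 i23 i31 hD L1 L2 L3
  -- the three rotations
  have r2 := EZ_cyc u₁ u₂ u₃ D₀
  have r3 := EZ_cyc u₃ u₁ u₂ D₀
  rcases lt_trichotomy (dt u₁ u₂) (dt u₂ u₃) with a | a | a
  · rcases lt_trichotomy (dt u₂ u₃) (dt u₃ u₁) with c | c | c
    · have := germD1 (L := L) hB' n3 n1 n2 d31 d12 i31 i12 i23 (a.trans c) c hD L3
      rw [← r3] at this
      exact this
    · have := gdx1 (L := L) hV hL hR hlen hm n2 n3 n1 d23 d31 d12 i23 i31 i12 hD c a.le L2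
      rw [r2] at this
      exact this
    · have := germD1 (L := L) hB' n2 n3 n1 d23 d31 i23 i31 i12 c a hD L2
      rw [r2] at this
      exact this
  · rcases le_or_gt (dt u₃ u₁) (dt u₁ u₂) with c | c
    · exact gdx1 (L := L) hV hL hR hlen hm n1 n2 n3 d12 d23 d31 i12 i23 i31 hD a c L1
    · have := germD1 (L := L) hB' n3 n1 n2 d31 d12 i31 i12 i23 c (a ▸ c) hD L3
      rw [← r3] at this
      exact this
  · rcases lt_trichotomy (dt u₃ u₁) (dt u₁ u₂) with c | c | c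
    · exact germD1 (L := L) hB' n1 n2 n3 d12 d23 i12 i23 i31 a c hD L1
    · have := gdx1 (L := L) hV hL hR hlen hm n3 n1 n2 d31 d12 d23 i31 i12 i23 hD c (c ▸ a.le) L3
      rw [← r3] at this
      exact this
    · have := germD1 (L := L) hB' n3 n1 n2 d31 d12 i31 i12 i23 c (a.trans c) hD L3
      rw [← r3] at this
      exact this

end Pool.Agent.XQ.GI
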