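import Pool.Agent.Helper35_XQ.Defs

/-!
Squad XQ (MP_5b0138_an), Part A2 (helper35): statements of the modules for GDX and GIS.
-/

set_option autoImplicit false

namespace Pool.Agent.XQ.GI

open MeasureTheory Complex Filter Topology Pool.Agent.H62T Pool.Agent.H60K
open scoped ENNReal NNReal

/-! ### Block O: kernels with words -/

/-- LST: combinatorics of labels of lists -/
def LstStatement : Prop :=
  (∀ f g : Lb, Rz f → Rz g → Rz (fun w => g (f w))) ∧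
  (∀ f : Lb, Rz f → f em = em) ∧
  (∀ f : Lb, Rz f → ∀ w, (f w).1 <:+ w.1) ∧
  (∀ f : Lb, Rz f → ∀ v w : Wd, v.1 <:+ w.1 → (f v).1 <:+ (f w).1) ∧
  (∀ f : Lb, Rz f → ∀ v w : Wd, v.1.Sublist w.1 → (f v).1.Sublist (f w).1) ∧
  (∀ f g : Lb, Rz f → Rz g → vs (fun w => g (f w)) = vs f ∪ vs g) ∧
  (∀ f : Lb, Rz f → ∀ w s, f w = em → s ∈ w.1 → s ∈ vs f) ∧
  (∀ f : Lb, Rz f → (Lp f ∨ Lm f ↔ vs f = Finset.univ)) ∧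
  (∀ (l : List (Finset (Fin 3))) (s : Fin 3), s ∈ vs (run l) ↔ ∃ c ∈ l, s ∈ c) ∧
  ∀ f : Lb, (Lp f ↔ Lm (pl (Equiv.swap 0 2) f)) ∧ (Rz f ↔ Rz (pl (Equiv.swap 0 2) f))

/-- KFB: basic facts on the kernels of chains -/
def KfbStatement : Prop :=
  ∀ (u : Fin 3 → ℂ) (h : Fin 3 → ℝ) (m : ℕ),
    (∀ f, Measurable (fun p : ℝ × ℂ × ℂ => KF u h m f p.1 p.2.1 p.2.2)) ∧
    ∀ (t : ℝ) (x y : ℂ), 0 < t →
    (∀ f, 0 ≤ KF u h m f t x y) ∧ (∀ f, KF u h m f t x y ≠ 0 → Rz f) ∧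
    (∑ f : Lb, KF u h m f t x y = G t (x - y)) ∧
    ∀ B : Finset (Fin 3), Ker (Dm u h B) m t x y
      = ∑ f : Lb, if Disjoint (vs f) B then KF u h m f t x y else 0

/-- KLM: the kernels of the chains converge -/
def KlmStatement : Prop :=
  ∀ (u : Fin 3 → ℂ) (h : Fin 3 → ℝ) (f : Lb) (t : ℝ) (x y : ℂ), 0 < t →
    ∃ l : ℝ, Tendsto (fun m => KF u h m f t x y) atTop (𝓝 l)

/-- ORD: the kernels with words -/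
def OrdStatement : Prop :=
  ∀ (u : Fin 3 → ℂ) (h : Fin 3 → ℝ), (∀ s, ‖u s‖ = 1) →
    (∀ f, Measurable (fun p : ℝ × ℂ × ℂ => KO u h f p.1 p.2.1 p.2.2)) ∧
    ∀ (t : ℝ) (x y : ℂ), 0 < t →
    (∀ f, Tendsto (fun m => KF u h m f t x y) atTop (𝓝 (KO u h f t x y))) ∧
    (∀ f, 0 ≤ KO u h f t x y) ∧ (∀ f, KO u h f t x y ≠ 0 → Rz f) ∧
    (∑ f : Lb, KO u h f t x y = G t (x - y)) ∧
    (∀ f, KO u h f t x y = ∑ f₁ : Lb, ∑ f₂ : Lb, if f = (fun w => f₂ (f₁ w)) then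
      ∫ z, KO u h f₁ (t / 2) x z * KO u h f₂ (t / 2) z y else 0) ∧
    (∀ A : Finset (Fin 3), kA u h A t x y = ∑ f : Lb, if vs f = A then KO u h f t x y else 0)

/-- UPO: bounds of the kernels from above -/
def UpoStatement : Prop :=
  ∀ (u : Fin 3 → ℂ) (h : Fin 3 → ℝ), (∀ s, ‖u s‖ = 1) → ∀ (a : ℝ), 0 < a →
    ∀ (k : ℕ) (w : Wd),
    Measurable (fun p : ℂ × ℂ => UO u h a k w p.1 p.2) ∧
    ∀ z x : ℂ, 0 ≤ UO u h a k w z x ∧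
      ∀ v : Wd, v.1.Sublist w.1 → UO u h a k w z x ≤ G ((k + 1) * a) (z - fo u h v.1 x)

open Classical in
/-- LOA: from one step to blocks, bounds from below -/
def LoaStatement : Prop :=
  ∀ (u : Fin 3 → ℂ) (h : Fin 3 → ℝ), (∀ s, ‖u s‖ = 1) →
    ∀ (x : ℂ) (Ψ : Wd → ℝ → ℂ → ℝ) (K ε : ℝ), 0 < ε → 0 ≤ K →
    (∀ w, Measurable (fun p : ℝ × ℂ => Ψ w p.1 p.2)) →
    (∀ w s y, 0 < s → 0 ≤ Ψ w s y ∧ Ψ w s y ≤ K / s) →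
    (∀ w s τ z, 0 < s → 0 < τ → Ψ w (s + τ) z - K / s * Real.exp (-(ε ^ 2 / (4 * τ)))
      ≤ ∫ y, G τ (z - y) * Ψ (rd (lb u h y) (rd (lb u h z) w)) s y) →
    (∀ w τ z, 0 < τ → Ψ w τ z - K / τ * Real.exp (-(ε ^ 2 / (4 * τ)))
      ≤ if rd (lb u h x) (rd (lb u h z) w) = em then G τ (z - x) else 0) →
    ∀ (a : ℝ) (k : ℕ) (w : Wd) (z : ℂ), 0 < a → Ψ w ((k + 1) * a) z ≤ UO u h a k w z x

/-- LOW: bound of the kernel for the word `0 1 2` from below -/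
def LowStatement : Prop :=
  ∀ (u : Fin 3 → ℂ) (h : Fin 3 → ℝ), (∀ s, ‖u s‖ = 1) →
    ∀ (n₁ n₂ : ℂ) (k₁ k₂ a : ℝ) (k : ℕ) (z x : ℂ), ‖n₁‖ = 1 → ‖n₂‖ = 1 → 0 < a →
    (∀ y, h 0 ≤ ip (u 0) y → h 1 ≤ ip (u 1) y → k₁ ≤ ip n₁ y) →
    (∀ y, h 1 ≤ ip (u 1) y → h 2 ≤ ip (u 2) y → k₂ ≤ ip n₂ y) →
    ip (u 2) x < h 2 → ip (u 1) (rf u h 2 x) < h 1 → ip n₂ (rf u h 2 x) < k₂ →
    ip (u 0) (rf u h 1 (rf u h 2 x)) < h 0 → ip n₁ (rf u h 1 (rf u h 2 x)) < k₁ →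
    ip (u 0) (rfl1 n₂ k₂ (rf u h 2 x)) < h 0 → ip (u 0) z < h 0 →
    G ((k + 1) * a) (z - rf u h 0 (rf u h 1 (rf u h 2 x)))
      - G ((k + 1) * a) (z - rfl1 n₁ k₁ (rf u h 1 (rf u h 2 x)))
      - G ((k + 1) * a) (z - rf u h 0 (rfl1 n₂ k₂ (rf u h 2 x)))
      ≤ UO u h a k w012 z x

/-- ONE: one letter, one block -/
def OneStatement : Prop :=
  ∀ (u : Fin 3 → ℂ) (h : Fin 3 → ℝ), (∀ s, ‖u s‖ = 1) → ∀ (s : Fin 3) (t : ℝ) (z x : ℂ), 0 < t →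
    ip (u s) z < h s → ip (u s) x < h s →
    (∑ f : Lb, if f (sg s) = em then KO u h f t z x else 0) = G t (z - rf u h s x)

/-- SYM: invariance under isometries which permute the sides -/
def SymStatement : Prop :=
  ∀ (u : Fin 3 → ℂ) (h : Fin 3 → ℝ) (σ : Equiv.Perm (Fin 3)) (g : ℂ ≃ᵢ ℂ),
    (∀ s x, h s ≤ ip (u s) (g x) ↔ h (σ s) ≤ ip (u (σ s)) x) →
    ∀ (f : Lb) (t : ℝ) (x y : ℂ), 0 < t → KO u h f t (g x) (g y) = KO u h (pl σ f) t x y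

/-! ### Block M: masses -/

/-- VLM: the mass of the loops which visit all labels -/
def VlmStatement : Prop :=
  ∀ α b t : ℝ, 0 < α → α < Real.pi / 2 → 0 < b → 0 < t →
    (∫⁻ x, ENNReal.ofReal (kME (uI α) (hI α b) Finset.univ ∅ t x x)) ≠ ⊤ →
    LM (uI α) (hI α b) Lp t ≠ ⊤ ∧ LM (uI α) (hI α b) (fun f => Lp f ∧ Lm f) t ≠ ⊤ ∧
    VM (uI α) (hI α b) Finset.univ ∅ t = 2 * (LM (uI α) (hI α b) Lp t).toReal
      - (LM (uI α) (hI α b) (fun f => Lp f ∧ Lm f) t).toReal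

/-- CHN: loops cut into `2 ^ q` blocks -/
def ChnStatement : Prop :=
  ∀ (u : Fin 3 → ℂ) (h : Fin 3 → ℝ), (∀ s, ‖u s‖ = 1) → ∀ (q n : ℕ) [NeZero n], n = 2 ^ q →
    ∀ (P : Lb → Prop) (t : ℝ), 0 < t →
      LM u h P t = MO (n := n) u h (t / n) (fun _ A => P (cp A))

open Classical in
/-- TEO: telescoping -/
def TeoStatement : Prop :=
  ∀ (n : ℕ) [NeZero n] (χ : Fin n → ℝ) (A : Fin n → Lb), 2 ≤ n → (∀ j, Rz (A j)) →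
    (∀ j, 0 ∈ vs (A j) → χ j = 1 ∧ χ (j + 1) = 1) →
    (∀ j, 2 ∈ vs (A j) → χ j = 0 ∧ χ (j + 1) = 0) → Nl (fun j => vs (A j)) →
    ∑ j, (χ (j + 1) - χ j) * (if FO A j then 1 else 0) = if Lp (cp A) then 1 else 0

/-- CMB: combinatorics of blocks -/
def CmbStatement : Prop :=
  ∀ (n : ℕ) [NeZero n] (A : Fin n → Lb), (∀ j, Rz (A j)) →
    Rz (cp A) ∧ (∀ s, s ∈ vs (cp A) ↔ ∃ j, s ∈ vs (A j)) ∧ (∀ j, FO A j → Lp (cp A)) ∧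
    (Lp (cp A) → Vis {0, 1, 2} ∅ (fun j => vs (A j))) ∧
    (Lp (cp A) → Lm (cp A) → Db (fun j => vs (A j))) ∧
    (∀ j, FO (fun i => A (i + j)) 0 ↔ FO A j) ∧
    ∀ j : Fin n, Lp (cp (fun i => A (i + j))) ↔ Lp (cp A)

/-- BLO: the mass of the loops is the sum of the fluxes up to a bad event -/
def BloStatement : Prop :=
  ∀ (u : Fin 3 → ℂ) (h : Fin 3 → ℝ), (∀ s, ‖u s‖ = 1) → ∀ (n : ℕ) [NeZero n] (t : ℝ), 2 ≤ n →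
    0 < t → MO (n := n) u h (t / n) (fun _ A => Lp (cp A)) ≠ ⊤ →
    |(MO (n := n) u h (t / n) (fun _ A => Lp (cp A))).toReal - n * TI n u h t|
      ≤ (n + 1) * (MO (n := n) u h (t / n) (fun x A => Lp (cp A) ∧
        ¬ (Ad x (fun j => vs (A j)) ∧ Nl (fun j => vs (A j))))).toReal

/-- TUI: the flux is given by the kernel of the other blocks -/
def TuiStatement : Prop :=
  ∀ (u : Fin 3 → ℂ) (h : Fin 3 → ℝ), (∀ s, ‖u s‖ = 1) → ∀ (n : ℕ) [NeZero n] (t : ℝ), 2 ≤ n →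
    0 < t → MO (n := n) u h (t / n) (fun _ A => Lp (cp A)) ≠ ⊤ → TI n u h t = TU n u h t

/-- MOL: comparison with the kernels with labels -/
def MolStatement : Prop :=
  ∀ (u : Fin 3 → ℂ) (h : Fin 3 → ℝ), (∀ s, ‖u s‖ = 1) → ∀ (n : ℕ) [NeZero n] (a : ℝ), 0 < a →
    ∀ (S : (Fin n → ℂ) → (Fin n → Lb) → Prop) (S' : (Fin n → ℂ) → (Fin n → Finset (Fin 3)) → Prop),
    (∀ B, MeasurableSet {x | S' x B}) →
    (∀ x A, (∀ j, Rz (A j)) → S x A → S' x (fun j => vs (A j))) →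
    MO u h a S ≤ Ms u h (fun _ => a) S'

/-! ### Block G: geometry -/

/-- GEO: loops for which the cut is not adapted or which have the pattern `0 2 0 2` are long -/
def GeoStatement : Prop :=
  ∀ α b e : ℝ, Real.pi / 3 ≤ α → α < Real.pi / 2 → 0 < b → 0 < e → ∃ δ0 : ℝ, 0 < δ0 ∧
    ∀ δ : ℝ, 0 < δ → δ < δ0 → ∀ (n : ℕ) [NeZero n] (x : Fin n → ℂ) (B : Fin n → Finset (Fin 3)),
    Vis {0, 1, 2} ∅ B → Cns (uI α) (hI α b) x B → Sho (uI α) (hI α b) δ x B →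
    (¬ (Ad x B ∧ Nl B) → Lq α b - e ≤ Ln (uI α) (hI α b) x B) ∧
    (Db B → La α b - e ≤ Ln (uI α) (hI α b) x B)

/-- LCI: a loop which visits all sides is not short and not far away -/
def LciStatement : Prop :=
  ∀ α b : ℝ, 0 < α → α < Real.pi / 2 → 0 < b → ∃ R : ℝ, 0 < R ∧
    ∀ (n : ℕ) [NeZero n] (x : Fin n → ℂ) (B : Fin n → Finset (Fin 3)),
      Vis {0, 1, 2} ∅ B → Cns (uI α) (hI α b) x B →
      ‖x 0‖ ≤ R * (1 + Ln (uI α) (hI α b) x B) ∧ 1 / R ≤ Ln (uI α) (hI α b) x B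

/-- LEN: comparison of the lengths -/
def LenStatement : Prop :=
  ∀ α b : ℝ, Real.pi / 3 ≤ α → α < Real.pi / 2 → 0 < b →
    0 < La α b ∧ lo α b < La α b ∧ La α b ≤ Lz α b ∧ Lz α b ≤ Lq α b ∧ Lq α b ≤ b * Real.tan α ∧
    (Real.pi / 3 < α → La α b < Lz α b)

/-- BAD: masses of long loops -/
def BadStatement : Prop :=
  ∀ α b e : ℝ, Real.pi / 3 ≤ α → α < Real.pi / 2 → 0 < b → 0 < e → e < La α b →
    ∃ n0 : ℕ, ∀ (n : ℕ) [NeZero n], n0 ≤ n → ∃ (C : ℝ) (p : ℕ), 0 ≤ C ∧ ∀ t : ℝ, 0 < t →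
    MO (n := n) (uI α) (hI α b) (t / n) (fun _ A => Lp (cp A)) ≤ ENNReal.ofReal (C * (1 + t) ^ p) ∧
    MO (n := n) (uI α) (hI α b) (t / n) (fun x A => Lp (cp A) ∧
        ¬ (Ad x (fun j => vs (A j)) ∧ Nl (fun j => vs (A j))))
      ≤ ENNReal.ofReal (C * (1 + t) ^ p * Real.exp (-((Lq α b - e) ^ 2 / (4 * t)))) ∧
    MO (n := n) (uI α) (hI α b) (t / n) (fun _ A => Lp (cp A) ∧ Lm (cp A))
      ≤ ENNReal.ofReal (C * (1 + t) ^ p * Real.exp (-((La α b - e) ^ 2 / (4 * t))))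

/-- CRU: rough bound of the mass -/
def CruStatement : Prop :=
  ∀ α b : ℝ, 0 < α → α < Real.pi / 2 → 0 < b → ∃ (C : ℝ) (p : ℕ), 0 ≤ C ∧ ∀ t : ℝ, 0 < t →
    (∫⁻ x, ENNReal.ofReal (kME (uI α) (hI α b) Finset.univ ∅ t x x))
      ≤ ENNReal.ofReal (C * (1 + t) ^ p)

/-! ### Block F: the flux -/

/-- FMA: the main term -/
def FmaStatement : Prop :=
  ∀ α b a s : ℝ, 0 < α → α < Real.pi / 2 → 0 < b → 0 < a → 0 < s →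
    Integrable (fun p : ℂ × ℂ => (c0 p.2 - c0 p.1) * G a (p.1 - p.2) * G s (p.2 - g0 α b p.1)) ∧
    ∫ p : ℂ × ℂ, (c0 p.2 - c0 p.1) * G a (p.1 - p.2) * G s (p.2 - g0 α b p.1)
      = 1 / 2 * (a / (a + s)) * lo α b * gg (a + s) (lo α b)

/-- KBD: bounds of the kernel near the cut -/
def KbdStatement : Prop :=
  ∀ α b e : ℝ, Real.pi / 3 ≤ α → α < Real.pi / 2 → 0 < b → 0 < e → ∃ d0 c2 : ℝ, 0 < d0 ∧ 0 < c2 ∧
    ∀ (a : ℝ) (k : ℕ) (z x : ℂ), 0 < a → |x.re| < d0 → ‖z - x‖ < d0 →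
    (0 ≤ x.im → x.im < b / 2 * Real.tan α - e →
      |UO (uI α) (hI α b) a k w012 z x - G ((k + 1) * a) (z - g0 α b x)|
        ≤ G ((k + 1) * a) (z - g1 α b x) + G ((k + 1) * a) (z - g2 α b x)) ∧
    (-c2 < x.im → x.im ≤ 0 →
      UO (uI α) (hI α b) a k w012 z x ≤ G ((k + 1) * a) (z - g0 α b x)) ∧
    (x.im ≤ -c2 →
      UO (uI α) (hI α b) a k w012 z x
        ≤ G ((k + 1) * a) (z - rf (uI α) (hI α b) 0 (rf (uI α) (hI α b) 2 x)) ∧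
      Lz α b - e ≤ ‖x - rf (uI α) (hI α b) 0 (rf (uI α) (hI α b) 2 x)‖) ∧
    (b / 2 * Real.tan α - e ≤ x.im → 0 ≤ x.im →
      UO (uI α) (hI α b) a k w012 z x ≤ G ((k + 1) * a) (z - rf (uI α) (hI α b) 1 x))

/-- ERF: error terms in the strip -/
def ErfStatement : Prop :=
  ∀ α b e d0 : ℝ, Real.pi / 3 ≤ α → α < Real.pi / 2 → 0 < b → 0 < e → 0 < d0 →
    2 * e < Lz α b → ∃ C : ℝ, 0 ≤ C ∧ ∀ t : ℝ, 0 < t → t < 1 →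
    (∫⁻ x in {x : ℂ | |x.re| < d0}, ENNReal.ofReal (G t (x - g1 α b x) + G t (x - g2 α b x)))
      ≤ ENNReal.ofReal (C / √t * Real.exp (-(La α b ^ 2 / (4 * t)))) ∧
    (∫⁻ x in {x : ℂ | |x.re| < d0 ∧ x.im ≤ 0}, ENNReal.ofReal (G t (x - g0 α b x)))
      ≤ ENNReal.ofReal (C * Real.exp (-(La α b ^ 2 / (4 * t)))) ∧
    (∫⁻ x in {x : ℂ | |x.re| < d0 ∧ b / 2 * Real.tan α - e ≤ x.im ∧ 0 ≤ x.im},
      ENNReal.ofReal (G t (x - g0 α b x) + G t (x - rf (uI α) (hI α b) 1 x)))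
      ≤ ENNReal.ofReal (C / t * Real.exp (-((Lz α b - 2 * e) ^ 2 / (4 * t)))) ∧
    (∫⁻ x in {x : ℂ | |x.re| < d0 ∧
        Lz α b - e ≤ ‖x - rf (uI α) (hI α b) 0 (rf (uI α) (hI α b) 2 x)‖},
      ENNReal.ofReal (G t (x - rf (uI α) (hI α b) 0 (rf (uI α) (hI α b) 2 x))))
      ≤ ENNReal.ofReal (C / t * Real.exp (-((Lz α b - 2 * e) ^ 2 / (4 * t))))

/-- DSP: large displacement in block `0` -/
def DspStatement : Prop :=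
  ∀ α b d0 l : ℝ, 0 < α → α < Real.pi / 2 → 0 < b → 0 < d0 → 0 < l → ∃ n0 : ℕ, 2 ≤ n0 ∧
    ∀ n : ℕ, n0 ≤ n → ∃ C : ℝ, 0 ≤ C ∧ ∀ t : ℝ, 0 < t → t < 1 →
    (∫⁻ p in {p : ℂ × ℂ | d0 ≤ ‖p.2 - p.1‖ ∧ c0 p.1 ≠ c0 p.2},
      ENNReal.ofReal (G (t / n) (p.1 - p.2) * (UO (uI α) (hI α b) (t / n) (n - 2) w012 p.2 p.1
        + G (t - t / n) (p.2 - g0 α b p.1))))
      ≤ ENNReal.ofReal (C * Real.exp (-(l ^ 2 / (4 * t))))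

/-- FLX: the flux -/
def FlxStatement : Prop :=
  ∀ α b e : ℝ, Real.pi / 3 ≤ α → α < Real.pi / 2 → 0 < b → 0 < e → 2 * e < Lz α b → ∃ n0 : ℕ,
    ∀ n : ℕ, n0 ≤ n → ∃ C : ℝ, 0 ≤ C ∧ ∀ t : ℝ, 0 < t → t < 1 →
    |n * TU n (uI α) (hI α b) t - 1 / 2 * lo α b * gg t (lo α b)|
      ≤ C / √t * Real.exp (-(La α b ^ 2 / (4 * t)))
        + C / t * Real.exp (-((Lz α b - 2 * e) ^ 2 / (4 * t)))

/-- BND: the band of periodic trajectories -/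
def BndStatement : Prop :=
  ∀ α b : ℝ, Real.pi / 3 ≤ α → α < Real.pi / 2 → 0 < b → ∃ c : ℝ, 0 < c ∧ ∀ t : ℝ, 0 < t → t < 1 →
    ENNReal.ofReal (c / t * Real.exp (-(La α b ^ 2 / (4 * t))))
      ≤ LM (uI α) (hI α b) (fun f => Lp f ∧ Lm f) t

/-! ### Block A: assembly -/

/-- VBD: bounds of the mass -/
def VbdStatement : Prop :=
  ∀ α b : ℝ, Real.pi / 3 ≤ α → α < Real.pi / 2 → 0 < b →
    (∃ (C : ℝ) (p : ℕ), 0 ≤ C ∧ ∀ t : ℝ, 0 < t →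
      0 ≤ VM (uI α) (hI α b) Finset.univ ∅ t ∧
      VM (uI α) (hI α b) Finset.univ ∅ t ≤ C * (1 + t) ^ p) ∧
    (Real.pi / 3 < α → ∃ c t0 : ℝ, 0 < c ∧ 0 < t0 ∧ ∀ t : ℝ, 0 < t → t < t0 →
      VM (uI α) (hI α b) Finset.univ ∅ t
        ≤ lo α b * gg t (lo α b) - c / t * Real.exp (-(La α b ^ 2 / (4 * t)))) ∧
    ∀ e : ℝ, 0 < e → e < La α b → ∃ C t0 : ℝ, 0 < t0 ∧ ∀ t : ℝ, 0 < t → t < t0 →
      |VM (uI α) (hI α b) Finset.univ ∅ t - lo α b * gg t (lo α b)|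
        ≤ C * Real.exp (-((La α b - e) ^ 2 / (4 * t)))

/-- LPI: Laplace transforms -/
def LpiStatement : Prop :=
  ∀ (V : ℝ → ℝ) (l L C c t0 : ℝ) (p : ℕ), Measurable V → 0 < l → l < L → 0 < t0 →
    (∀ t : ℝ, 0 < t → 0 ≤ V t ∧ V t ≤ C * (1 + t) ^ p) →
    (0 < c → (∀ t : ℝ, 0 < t → t < t0 →
        V t ≤ l * gg t l - c / t * Real.exp (-(L ^ 2 / (4 * t)))) →
      ∃ c' κ0 : ℝ, 0 < c' ∧ 0 < κ0 ∧ ∀ κ : ℝ, κ0 ≤ κ →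
        c' * κ ^ (1 / 2 : ℝ) * Real.exp (-(L * κ)) ≤ Real.exp (-(l * κ)) - PhiT V κ) ∧
    ((∀ t : ℝ, 0 < t → t < t0 → |V t - l * gg t l| ≤ C * Real.exp (-(L ^ 2 / (4 * t)))) →
      ∀ L' : ℝ, L' < L → ∃ C' κ0 : ℝ, 0 < κ0 ∧ ∀ κ : ℝ, κ0 ≤ κ →
        |PhiT V κ - Real.exp (-(l * κ))| ≤ C' * Real.exp (-(L' * κ)))

/-- RED: reduction to the standard position -/
def RedStatement : Prop :=
  ∀ (u₁ u₂ u₃ : ℂ) (D₀ : ℝ), ‖u₁‖ = 1 → ‖u₂‖ = 1 → ‖u₃‖ = 1 → 0 < dt u₁ u₂ → 0 < dt u₂ u₃ →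
    0 < dt u₃ u₁ → ip u₁ u₂ < 0 → ip u₂ u₃ < 0 → ip u₃ u₁ < 0 → 0 < D₀ →
    dt u₁ u₂ = dt u₂ u₃ → dt u₃ u₁ ≤ dt u₁ u₂ →
    ∃ α b : ℝ, Real.pi / 3 ≤ α ∧ α < Real.pi / 2 ∧ 0 < b ∧ (dt u₃ u₁ < dt u₁ u₂ → Real.pi / 3 < α) ∧
      lo α b = 2 * D₀ ∧ La α b = 2 * D₀ / dt u₁ u₂ ∧
      ∀ κ : ℝ, AEU.Lap (AEU.EZ u₁ u₂ u₃ D₀) κ
        = -PhiT (VM (uI α) (hI α b) Finset.univ ∅) κ

end Pool.Agent.XQ.GI
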